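import Mathlib

/-! Basic facts on `EuclideanSpace ℝ (Fin 3)` used in the construction for MP_104731_an. -/

namespace Pool.Agent.H72.FD

open Set Filter Topology MeasureTheory

noncomputable section

/-- Three dimensional Euclidean space. -/
abbrev V : Type := EuclideanSpace ℝ (Fin 3)

/-- The point with given coordinates. -/
def pt (a b c : ℝ) : V := WithLp.toLp 2 ![a, b, c]

@[simp] lemma pt_zero (a b c : ℝ) : pt a b c 0 = a := rfl
@[simp] lemma pt_one (a b c : ℝ) : pt a b c 1 = b := rfl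
@[simp] lemma pt_two (a b c : ℝ) : pt a b c 2 = c := rfl

lemma ext3 {x y : V} (h0 : x 0 = y 0) (h1 : x 1 = y 1) (h2 : x 2 = y 2) : x = y := by
  ext i
  fin_cases i
  · exact h0
  · exact h1
  · exact h2

lemma abs_coord_le (x : V) (i : Fin 3) : |x i| ≤ ‖x‖ := by
  have := PiLp.norm_apply_le x i
  rwa [Real.norm_eq_abs] at this

lemma norm_le_of_coord {x : V} {C : ℝ} (h : ∀ i, |x i| ≤ C) : ‖x‖ ≤ 2 * C := by
  have hC : 0 ≤ C := (abs_nonneg _).trans (h 0)
  rw [EuclideanSpace.norm_eq, Fin.sum_univ_three]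
  rw [show 2 * C = √((2 * C) ^ 2) by rw [Real.sqrt_sq (by positivity)]]
  apply Real.sqrt_le_sqrt
  have e : ∀ i, ‖x i‖ ^ 2 ≤ C ^ 2 := fun i => by
    rw [Real.norm_eq_abs]
    exact pow_le_pow_left₀ (abs_nonneg _) (h i) 2
  have := e 0
  have := e 1
  have := e 2
  nlinarith [sq_nonneg C]

/-- The continuous linear map given by a matrix. -/
def lin (M : Matrix (Fin 3) (Fin 3) ℝ) : V →L[ℝ] V := Matrix.toEuclideanCLM (𝕜 := ℝ) M

lemma lin_apply (M : Matrix (Fin 3) (Fin 3) ℝ) (x : V) (i : Fin 3) :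
    lin M x i = M i 0 * x 0 + M i 1 * x 1 + M i 2 * x 2 := by
  unfold lin
  rw [show (Matrix.toEuclideanCLM (𝕜 := ℝ) M x) i = (M.mulVec x.ofLp) i from rfl]
  simp [Matrix.mulVec, dotProduct, Fin.sum_univ_three]

lemma lin_det (M : Matrix (Fin 3) (Fin 3) ℝ) : (lin M).det = M.det := by
  unfold lin ContinuousLinearMap.det
  rw [Matrix.coe_toEuclideanCLM_eq_toEuclideanLin, Matrix.toEuclideanLin_eq_toLin_orthonormal,
    LinearMap.det_toLin]

lemma lin_norm {M : Matrix (Fin 3) (Fin 3) ℝ} {C : ℝ} (h : ∀ i j, |M i j| ≤ C) :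
    ‖lin M‖ ≤ 6 * C := by
  have hC : 0 ≤ C := (abs_nonneg _).trans (h 0 0)
  refine ContinuousLinearMap.opNorm_le_bound _ (by positivity) fun x => ?_
  rw [show 6 * C * ‖x‖ = 2 * (3 * C * ‖x‖) by ring]
  apply norm_le_of_coord
  intro i
  rw [lin_apply]
  have e : ∀ j, |M i j * x j| ≤ C * ‖x‖ := fun j => by
    rw [abs_mul]
    exact mul_le_mul (h i j) (abs_coord_le x j) (abs_nonneg _) hC
  have h0 := e 0
  have h1 := e 1
  have h2 := e 2
  have h3 := abs_add_le (M i 0 * x 0 + M i 1 * x 1) (M i 2 * x 2)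
  have h4 := abs_add_le (M i 0 * x 0) (M i 1 * x 1)
  linarith

lemma det_comp (A B : V →L[ℝ] V) : (A.comp B).det = A.det * B.det := by
  show LinearMap.det ((A : V →ₗ[ℝ] V) ∘ₗ (B : V →ₗ[ℝ] V)) = _
  rw [LinearMap.det_comp]

/-- Coordinate functional. -/
def pr (i : Fin 3) : V →L[ℝ] ℝ := EuclideanSpace.proj i

@[simp] lemma pr_apply (i : Fin 3) (x : V) : pr i x = x i := rfl

lemma hasFDerivAt_pr (i : Fin 3) (x : V) : HasFDerivAt (fun y : V => y i) (pr i) x :=
  (pr i).hasFDerivAt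

lemma hasFDerivAt_lin {f : V → V} {M : Matrix (Fin 3) (Fin 3) ℝ} {x : V}
    (h : ∀ i, HasFDerivAt (fun y => f y i) (M i 0 • pr 0 + M i 1 • pr 1 + M i 2 • pr 2) x) :
    HasFDerivAt f (lin M) x := by
  rw [← hasFDerivWithinAt_univ, hasFDerivWithinAt_piLp]
  intro i
  rw [hasFDerivWithinAt_univ]
  convert! h i using 1
  ext y
  simp [lin_apply]

lemma continuous_coord (i : Fin 3) : Continuous fun y : V => y i := (pr i).continuous

lemma continuous_pt {X : Type*} [TopologicalSpace X] {f g h : X → ℝ} (hf : Continuous f)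
    (hg : Continuous g) (hh : Continuous h) : Continuous fun x => pt (f x) (g x) (h x) := by
  unfold pt
  refine (PiLp.continuous_toLp 2 _).comp ?_
  refine continuous_pi fun i => ?_
  fin_cases i
  · exact hf
  · exact hg
  · exact hh

/-- Affine hyperplanes are null sets. -/
lemma ae_ne (φ : V →L[ℝ] ℝ) (hφ : φ ≠ 0) (d : ℝ) : ∀ᵐ y : V, φ y ≠ d := by
  rw [ae_iff]
  simp only [not_not]
  by_cases hne : ∃ y0, φ y0 = d
  · obtain ⟨y0, hy0⟩ := hne
    have hset : {y : V | φ y = d} = (fun y => y + (-y0)) ⁻¹' (LinearMap.ker (φ : V →ₗ[ℝ] ℝ) : Set V) := by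
      ext y
      simp [hy0, ← sub_eq_add_neg, sub_eq_zero]
    rw [hset, measure_preimage_add_right]
    apply Measure.addHaar_submodule
    intro htop
    apply hφ
    ext y
    have : y ∈ LinearMap.ker (φ : V →ₗ[ℝ] ℝ) := by rw [htop]; trivial
    simpa using this
  · push Not at hne
    have : {y : V | φ y = d} = ∅ := by
      ext y
      simp [hne y]
    rw [this, measure_empty]

lemma ae_coord_ne (i : Fin 3) (d : ℝ) : ∀ᵐ y : V, y i ≠ d := by
  apply ae_ne (pr i)
  intro h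
  have := congrArg (fun f : V →L[ℝ] ℝ => f (pt 1 1 1)) h
  fin_cases i <;> simp [pr, pt] at this

lemma ae_lin2_ne (i j : Fin 3) (hij : i ≠ j) (a d : ℝ) : ∀ᵐ y : V, y i ≠ a * y j + d := by
  have : ∀ᵐ y : V, (pr i - a • pr j) y ≠ d := by
    apply ae_ne
    intro h
    have h2 := congrArg (fun f : V →L[ℝ] ℝ => f (EuclideanSpace.single i 1)) h
    simp [pr, hij.symm] at h2
  filter_upwards [this] with y hy h
  apply hy
  simp [h]

lemma ae_abs_coord_ne (i : Fin 3) (d : ℝ) : ∀ᵐ y : V, |y i| ≠ d := by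
  filter_upwards [ae_coord_ne i d, ae_coord_ne i (-d)] with y h1 h2 h
  rcases abs_cases (y i) with ⟨h3, _⟩ | ⟨h3, _⟩
  · exact h1 (by linarith)
  · exact h2 (by linarith)

lemma ae_abs_lin2_ne (i j : Fin 3) (hij : i ≠ j) (a d : ℝ) : ∀ᵐ y : V, |y i| ≠ a * |y j| + d := by
  filter_upwards [ae_lin2_ne i j hij a d, ae_lin2_ne i j hij (-a) d, ae_lin2_ne i j hij a (-d),
    ae_lin2_ne i j hij (-a) (-d)] with y h1 h2 h3 h4 h
  rcases abs_cases (y i) with ⟨h5, _⟩ | ⟨h5, _⟩ <;> rcases abs_cases (y j) with ⟨h6, _⟩ | ⟨h6, _⟩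
  · exact h1 (by rw [h5, h6] at h; linarith)
  · exact h2 (by rw [h5, h6] at h; linarith)
  · exact h4 (by rw [h5, h6] at h; linarith)
  · exact h3 (by rw [h5, h6] at h; linarith)

/-- The radial variable of the block. -/
def rad (y : V) : ℝ := max |y 1| |y 2|

lemma ae_rad_ne (a d : ℝ) : ∀ᵐ y : V, rad y ≠ a * |y 0| + d := by
  filter_upwards [ae_abs_lin2_ne 1 0 (by decide) a d, ae_abs_lin2_ne 2 0 (by decide) a d]
    with y h1 h2 h
  unfold rad at h
  rcases max_choice |y 1| |y 2| with h3 | h3 <;> rw [h3] at h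
  · exact h1 h
  · exact h2 h

lemma rad_nonneg (y : V) : 0 ≤ rad y := (abs_nonneg _).trans (le_max_left _ _)

lemma continuous_rad : Continuous rad := by
  unfold rad
  exact ((continuous_coord 1).abs).max ((continuous_coord 2).abs)

end

end Pool.Agent.H72.FD
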