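import Pool.Agent.H72.FD.Planar
import Pool.Agent.H72.FD.Basic

/-! The block map for MP_104731_an. -/

namespace Pool.Agent.H72.FD

open Set Filter Topology MeasureTheory

noncomputable section

lemma max_lip {a b a' b' D : ℝ} (h1 : |a - a'| ≤ D) (h2 : |b - b'| ≤ D) :
    |max a b - max a' b'| ≤ D :=
  (abs_max_sub_max_le_max a b a' b').trans (max_le h1 h2)

lemma min_lip {a b a' b' D : ℝ} (h1 : |a - a'| ≤ D) (h2 : |b - b'| ≤ D) :
    |min a b - min a' b'| ≤ D :=
  (abs_min_sub_min_le_max a b a' b').trans (max_le h1 h2)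

lemma two_lip {p q e x r x' r' D : ℝ} {K : ℝ} (hp : |p| ≤ K) (hq : |q| ≤ K)
    (hD : K * (|x - x'| + |r - r'|) ≤ D) :
    |(p * x + q * r + e) - (p * x' + q * r' + e)| ≤ D := by
  rw [show (p * x + q * r + e) - (p * x' + q * r' + e) = p * (x - x') + q * (r - r') by ring]
  refine (abs_add_le _ _).trans ?_
  rw [abs_mul, abs_mul]
  have h1 := mul_le_mul_of_nonneg_right hp (abs_nonneg (x - x'))
  have h2 := mul_le_mul_of_nonneg_right hq (abs_nonneg (r - r'))
  linarith

lemma X0_lip {c : ℝ} (hc : 0 < c) (hc' : c ≤ 1 / 16) (x x' r r' : ℝ) :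
    |X0 c x r - X0 c x' r'| ≤ 5 * (|x - x'| + |r - r'|) := by
  have ht : |max (r - 1 / 2) 0 - max (r' - 1 / 2) 0| ≤ |r - r'| := by
    refine max_lip (by simp) (by simp)
  have hx := abs_nonneg (x - x')
  have hr := abs_nonneg (r - r')
  unfold X0
  refine max_lip (max_lip (max_lip (min_lip ?_ ?_) ?_) ?_) ?_
  · have := two_lip (p := 4 * c) (q := 0) (e := 0) (x := x) (x' := x') (r := r) (r' := r') (K := 5)
      (D := 5 * (|x - x'| + |r - r'|)) (by rw [abs_of_nonneg (by linarith)]; linarith) (by simp) le_rfl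
    simpa using this
  · have := two_lip (p := - 4 * (1 + 2 * c)) (q := -4 * (1 + 3 * c)) (e := 1 + 3 * c) (x := x) (x' := x')
      (r := max (r - 1 / 2) 0) (r' := max (r' - 1 / 2) 0) (K := 5)
      (D := 5 * (|x - x'| + |r - r'|)) (by rw [abs_of_nonpos (by linarith)]; linarith)
      (by rw [abs_of_nonpos (by linarith)]; linarith) (by linarith)
    convert this using 2
    ring
  · have := two_lip (p := -2 * (1 + c)) (q := 0) (e := 0) (x := x) (x' := x') (r := r) (r' := r') (K := 5)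
      (D := 5 * (|x - x'| + |r - r'|)) (by rw [abs_of_nonpos (by linarith)]; linarith) (by simp) le_rfl
    convert this using 2
    ring
  · have := two_lip (p := -1) (q := 1 + 2 * c) (e := - (1 + 2 * c)) (x := x) (x' := x') (r := r)
      (r' := r') (K := 5)
      (D := 5 * (|x - x'| + |r - r'|)) (by norm_num) (by rw [abs_of_nonneg (by linarith)]; linarith)
      le_rfl
    convert this using 2
    ring
  · have := two_lip (p := 2 * c) (q := 0) (e := -1 - 2 * c) (x := x) (x' := x') (r := r) (r' := r')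
      (K := 5)
      (D := 5 * (|x - x'| + |r - r'|)) (by rw [abs_of_nonneg (by linarith)]; linarith) (by simp) le_rfl
    convert this using 2
    ring

lemma Rf_lip {c : ℝ} (hc : 0 < c) (hc' : c ≤ 1 / 16) (x x' r r' : ℝ) :
    |Rf c x r - Rf c x' r'| ≤ 5 * (|x - x'| + |r - r'|) := by
  have ht : |max (x - 1 / 2) 0 - max (x' - 1 / 2) 0| ≤ |x - x'| := by
    refine max_lip (by simp) (by simp)
  have hx := abs_nonneg (x - x')
  have hr := abs_nonneg (r - r')
  unfold Rf
  refine min_lip (min_lip ?_ ?_) (max_lip ?_ ?_)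
  · have := two_lip (p := 0) (q := -2 * c) (e := 1 + 2 * c) (x := x) (x' := x') (r := r) (r' := r')
      (K := 5)
      (D := 5 * (|x - x'| + |r - r'|)) (by simp) (by rw [abs_of_nonpos (by linarith)]; linarith) le_rfl
    convert this using 2
    ring
  · have := two_lip (p := 4 / 3 + 8 / 3 * c) (q := 4 / 3 + 2 / 3 * c) (e := 0) (x := x) (x' := x')
      (r := r) (r' := r') (K := 5)
      (D := 5 * (|x - x'| + |r - r'|)) (by rw [abs_of_nonneg (by linarith)]; linarith)
      (by rw [abs_of_nonneg (by linarith)]; linarith) le_rfl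
    convert this using 2
    ring
  · linarith
  · have := two_lip (p := - 2 * (1 + 2 * c)) (q := 2 * (1 + c)) (e := 0) (x := max (x - 1 / 2) 0)
      (x' := max (x' - 1 / 2) 0)
      (r := r) (r' := r') (K := 5)
      (D := 5 * (|x - x'| + |r - r'|)) (by rw [abs_of_nonpos (by linarith)]; linarith)
      (by rw [abs_of_nonneg (by linarith)]; linarith) (by linarith)
    convert this using 2
    ring

lemma X0_zero {c r : ℝ} (hc : 0 < c) (hr : r ≤ 1) : X0 c 0 r = 0 := by
  unfold X0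
  rw [max_eq_left, max_eq_left, max_eq_right]
  · ring
  · simp
  · have : 0 ≤ (1 + 2 * c) * (1 - r) := mul_nonneg (by linarith) (by linarith)
    apply le_max_of_le_right
    linarith
  · apply le_max_of_le_left
    apply le_max_of_le_right
    linarith

/-- signed first coordinate. -/
def Xs (c x r : ℝ) : ℝ := X0 c (max x 0) r - X0 c (max (-x) 0) r

lemma Xs_pos {c x r : ℝ} (hc : 0 < c) (hr : r ≤ 1) (hx : 0 ≤ x) : Xs c x r = X0 c x r := by
  unfold Xs
  rw [max_eq_left hx, max_eq_right (by linarith : -x ≤ 0), X0_zero hc hr, sub_zero]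

lemma Xs_neg {c x r : ℝ} (hc : 0 < c) (hr : r ≤ 1) (hx : x ≤ 0) : Xs c x r = - X0 c (-x) r := by
  unfold Xs
  rw [max_eq_right hx, max_eq_left (by linarith : 0 ≤ -x), X0_zero hc hr, zero_sub]

lemma Xs_lip {c : ℝ} (hc : 0 < c) (hc' : c ≤ 1 / 16) (x x' r r' : ℝ) :
    |Xs c x r - Xs c x' r'| ≤ 10 * (|x - x'| + |r - r'|) := by
  unfold Xs
  have h1 := X0_lip hc hc' (max x 0) (max x' 0) r r'
  have h2 := X0_lip hc hc' (max (-x) 0) (max (-x') 0) r r'
  have h3 : |max x 0 - max x' 0| ≤ |x - x'| := max_lip le_rfl (by simp)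
  have h4 : |max (-x) 0 - max (-x') 0| ≤ |x - x'| :=
    max_lip (by rw [show -x - -x' = -(x - x') by ring, abs_neg]) (by simp)
  rw [show X0 c (max x 0) r - X0 c (max (-x) 0) r - (X0 c (max x' 0) r' - X0 c (max (-x') 0) r') =
    (X0 c (max x 0) r - X0 c (max x' 0) r') - (X0 c (max (-x) 0) r - X0 c (max (-x') 0) r') by ring]
  refine (abs_sub _ _).trans ?_
  linarith

/-- Boundary values at `r = 1`. -/
lemma bd_r {c x : ℝ} (hc : 0 < c) (h0 : 0 ≤ x) (h1 : x ≤ 1) :
    X0 c x 1 = -x ∧ Rf c x 1 = 1 := by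
  have hcx : 0 ≤ c * x := mul_nonneg hc.le h0
  have hcx1 : 0 ≤ c * (1 - x) := mul_nonneg hc.le (by linarith)
  constructor
  · unfold X0
    rw [max_eq_left (by norm_num : (0:ℝ) ≤ 1 - 1 / 2), min_eq_right (by nlinarith),
      mx_b (by nlinarith) (by nlinarith) (by nlinarith)]
    ring
  · unfold Rf
    rw [min_eq_left, min_eq_left]
    · ring
    · nlinarith
    · apply min_le_of_left_le
      apply le_max_of_le_left
      linarith

/-- Boundary values at `x = 1`. -/
lemma bd_x {c r : ℝ} (hc : 0 < c) (h0 : 0 ≤ r) (h1 : r ≤ 1) :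
    X0 c 1 r = -1 ∧ Rf c 1 r = r := by
  have hcr : 0 ≤ c * r := mul_nonneg hc.le h0
  have hcr1 : 0 ≤ c * (1 - r) := mul_nonneg hc.le (by linarith)
  constructor
  · unfold X0
    have : (0:ℝ) ≤ max (r - 1 / 2) 0 := le_max_right _ _
    rw [max_eq_right]
    · ring
    · refine max_le (max_le ?_ ?_) ?_
      · apply min_le_of_right_le
        nlinarith [mul_nonneg hc.le this]
      · nlinarith
      · nlinarith
  · unfold Rf
    rw [max_eq_left (by norm_num : (0:ℝ) ≤ 1 - 1 / 2), max_eq_left (by nlinarith),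
      min_eq_right]
    apply le_min <;> nlinarith

lemma Rf_bounds {c x r : ℝ} (hc : 0 < c) (hc' : c ≤ 1 / 16) (hx : 0 ≤ x) (h0 : 0 ≤ r) (h1 : r ≤ 1) :
    r ≤ Rf c x r ∧ Rf c x r ≤ 17 / 8 * r := by
  have hcr : 0 ≤ c * r := mul_nonneg hc.le h0
  have hcx : 0 ≤ c * x := mul_nonneg hc.le hx
  have hcr1 : 0 ≤ c * (1 - r) := mul_nonneg hc.le (by linarith)
  have hcr2 : 0 ≤ (1 / 16 - c) * r := mul_nonneg (by linarith) h0
  have ht : (0:ℝ) ≤ max (x - 1 / 2) 0 := le_max_right _ _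
  unfold Rf
  constructor
  · refine le_min (le_min ?_ ?_) (le_max_left _ _) <;> nlinarith
  · refine min_le_of_right_le (max_le ?_ ?_)
    · linarith
    · nlinarith [mul_nonneg hc.le ht]

/-- Lipschitz estimate for `R / r * w`. -/
lemma radial_lip {R r w R' r' w' M : ℝ} (hM : 0 ≤ M) (hr : 0 ≤ r) (hr' : 0 ≤ r')
    (hw : |w| ≤ r) (hw' : |w'| ≤ r') (hR : 0 ≤ R) (hR' : 0 ≤ R') (hRr : R ≤ M * r)
    (hRr' : R' ≤ M * r') :
    |R / r * w - R' / r' * w'| ≤ |R - R'| + M * |r - r'| + M * |w - w'| := by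
  have a1 := abs_nonneg (R - R')
  have a2 := mul_nonneg hM (abs_nonneg (r - r'))
  rcases hr.eq_or_lt with h | h
  · have hw0 : w = 0 := by
      rw [← h] at hw; exact abs_nonpos_iff.1 hw
    rw [hw0, mul_zero, zero_sub, zero_sub, abs_neg, abs_neg, abs_mul, abs_div, abs_of_nonneg hR',
      abs_of_nonneg hr']
    have : R' / r' * |w'| ≤ M * |w'| := by
      apply mul_le_mul_of_nonneg_right _ (abs_nonneg _)
      rcases hr'.eq_or_lt with h' | h'
      · rw [← h', div_zero]; exact hM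
      · rw [div_le_iff₀ h']; exact hRr'
    linarith
  rcases hr'.eq_or_lt with h' | h'
  · have hw0 : w' = 0 := by
      rw [← h'] at hw'; exact abs_nonpos_iff.1 hw'
    rw [hw0, mul_zero, sub_zero, sub_zero, abs_mul, abs_div, abs_of_nonneg hR,
      abs_of_nonneg hr]
    have : R / r * |w| ≤ M * |w| := by
      apply mul_le_mul_of_nonneg_right _ (abs_nonneg _)
      rw [div_le_iff₀ h]; exact hRr
    linarith
  have e : R / r * w - R' / r' * w' = (R - R') * (w / r) + (R' / r') * ((w / r) * (r' - r) + (w - w')) := by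
    field_simp
    ring
  have hwr : |w / r| ≤ 1 := by
    rw [abs_div, abs_of_pos h, div_le_one h]; exact hw
  have hRr2 : |R' / r'| ≤ M := by
    rw [abs_div, abs_of_nonneg hR', abs_of_pos h', div_le_iff₀ h']; exact hRr'
  rw [e]
  refine (abs_add_le _ _).trans ?_
  rw [abs_mul, abs_mul]
  have h1 : |R - R'| * |w / r| ≤ |R - R'| := mul_le_of_le_one_right (abs_nonneg _) hwr
  have h2 : |w / r * (r' - r) + (w - w')| ≤ |r - r'| + |w - w'| := by
    refine (abs_add_le _ _).trans ?_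
    rw [abs_mul, abs_sub_comm r' r]
    have := mul_le_of_le_one_left (abs_nonneg (r - r')) hwr
    linarith
  have h3 := mul_le_mul hRr2 h2 (abs_nonneg _) hM
  linarith

/-- The normalised block map. -/
def Fb (c : ℝ) (y : V) : V :=
  pt (Xs c (y 0) (rad y)) (Rf c |y 0| (rad y) / rad y * y 1) (Rf c |y 0| (rad y) / rad y * y 2)

/-- The boundary reflection. -/
def rho : V →L[ℝ] V := lin !![-1, 0, 0; 0, 1, 0; 0, 0, 1]

@[simp] lemma rho_zero (y : V) : rho y 0 = - y 0 := by simp [rho, lin_apply]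
@[simp] lemma rho_one (y : V) : rho y 1 = y 1 := by simp [rho, lin_apply]
@[simp] lemma rho_two (y : V) : rho y 2 = y 2 := by simp [rho, lin_apply]

/-- Clamp to `[-1,1]`. -/
def cl (t : ℝ) : ℝ := max (-1) (min 1 t)

lemma cl_lip (s t : ℝ) : |cl s - cl t| ≤ |s - t| :=
  max_lip (by simp) (min_lip (by simp) le_rfl)

lemma abs_cl_le (t : ℝ) : |cl t| ≤ 1 := by
  rw [abs_le]
  exact ⟨le_max_left _ _, max_le (by norm_num) (min_le_left _ _)⟩

lemma cl_of_abs_le {t : ℝ} (h : |t| ≤ 1) : cl t = t := by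
  rw [abs_le] at h
  unfold cl
  rw [min_eq_right h.2, max_eq_right h.1]

lemma abs_cl_eq {t : ℝ} (h : 1 ≤ |t|) : |cl t| = 1 := by
  unfold cl
  rcases le_abs.1 h with h | h
  · rw [min_eq_left h, max_eq_right (by norm_num), abs_one]
  · rw [max_eq_left]
    · simp
    · exact (min_le_right _ _).trans (by linarith)

/-- Clamp to the cube. -/
def kap (y : V) : V := pt (cl (y 0)) (cl (y 1)) (cl (y 2))

/-- The compactly supported correction. -/
def psi (c : ℝ) (y : V) : V := Fb c (kap y) - rho (kap y)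

lemma rad_kap_le (y : V) : rad (kap y) ≤ 1 := max_le (abs_cl_le _) (abs_cl_le _)

lemma abs_abs_sub (a b : ℝ) : |(|a| - |b|)| ≤ |a - b| := abs_abs_sub_abs_le a b

lemma rad_lip (x y : V) : |rad x - rad y| ≤ ‖x - y‖ := by
  refine max_lip ?_ ?_
  · exact (abs_abs_sub _ _).trans (abs_coord_le (x - y) 1)
  · exact (abs_abs_sub _ _).trans (abs_coord_le (x - y) 2)

lemma Fb_lip {c : ℝ} (hc : 0 < c) (hc' : c ≤ 1 / 16) (x y : V) (hx : rad x ≤ 1) (hy : rad y ≤ 1) :
    ‖Fb c x - Fb c y‖ ≤ 40 * ‖x - y‖ := by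
  have n0 := norm_nonneg (x - y)
  rw [show 40 * ‖x - y‖ = 2 * (20 * ‖x - y‖) by ring]
  have hr := rad_lip x y
  have bx := Rf_bounds hc hc' (abs_nonneg (x 0)) (rad_nonneg x) hx
  have by' := Rf_bounds hc hc' (abs_nonneg (y 0)) (rad_nonneg y) hy
  have hR := Rf_lip hc hc' |x 0| |y 0| (rad x) (rad y)
  have h0 : |x 0 - y 0| ≤ ‖x - y‖ := abs_coord_le (x - y) 0
  have h1 : |x 1 - y 1| ≤ ‖x - y‖ := abs_coord_le (x - y) 1
  have h2 : |x 2 - y 2| ≤ ‖x - y‖ := abs_coord_le (x - y) 2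
  have h00 := (abs_abs_sub (x 0) (y 0)).trans h0
  have rx := rad_nonneg x
  have ry := rad_nonneg y
  apply norm_le_of_coord
  intro i
  fin_cases i
  · have := Xs_lip hc hc' (x 0) (y 0) (rad x) (rad y)
    change |Xs c (x 0) (rad x) - Xs c (y 0) (rad y)| ≤ _
    linarith
  · change |Rf c |x 0| (rad x) / rad x * x 1 - Rf c |y 0| (rad y) / rad y * y 1| ≤ _
    refine (radial_lip (M := 17 / 8) (by norm_num) rx ry (le_max_left _ _) (le_max_left _ _)
      (rx.trans bx.1) (ry.trans by'.1) bx.2 by'.2).trans ?_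
    linarith
  · change |Rf c |x 0| (rad x) / rad x * x 2 - Rf c |y 0| (rad y) / rad y * y 2| ≤ _
    refine (radial_lip (M := 17 / 8) (by norm_num) rx ry (le_max_right _ _) (le_max_right _ _)
      (rx.trans bx.1) (ry.trans by'.1) bx.2 by'.2).trans ?_
    linarith

lemma rho_norm : ‖rho‖ ≤ 6 := by
  have := lin_norm (M := !![-1, 0, 0; 0, 1, 0; 0, 0, 1]) (C := 1) (by
    intro i j
    fin_cases i <;> fin_cases j <;> simp)
  unfold rho
  linarith

lemma rho_le (x : V) : ‖rho x‖ ≤ 6 * ‖x‖ :=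
  (rho.le_opNorm x).trans (mul_le_mul_of_nonneg_right rho_norm (norm_nonneg _))

lemma kap_lip (x y : V) : ‖kap x - kap y‖ ≤ 2 * ‖x - y‖ := by
  apply norm_le_of_coord
  intro i
  fin_cases i
  · exact (cl_lip _ _).trans (abs_coord_le (x - y) 0)
  · exact (cl_lip _ _).trans (abs_coord_le (x - y) 1)
  · exact (cl_lip _ _).trans (abs_coord_le (x - y) 2)

lemma psi_lip {c : ℝ} (hc : 0 < c) (hc' : c ≤ 1 / 16) (x y : V) :
    ‖psi c x - psi c y‖ ≤ 100 * ‖x - y‖ := by
  unfold psi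
  have h1 := Fb_lip hc hc' (kap x) (kap y) (rad_kap_le x) (rad_kap_le y)
  have h2 := rho_le (kap x - kap y)
  have h3 := kap_lip x y
  rw [map_sub] at h2
  rw [show Fb c (kap x) - rho (kap x) - (Fb c (kap y) - rho (kap y)) =
    (Fb c (kap x) - Fb c (kap y)) - (rho (kap x) - rho (kap y)) by abel]
  refine (norm_sub_le _ _).trans ?_
  have h4 := norm_nonneg (x - y)
  linarith

lemma Fb_boundary {c : ℝ} (hc : 0 < c) {y : V} (h0 : |y 0| ≤ 1) (hr : rad y ≤ 1)
    (h : |y 0| = 1 ∨ rad y = 1) : Fb c y = rho y := by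
  have key : X0 c |y 0| (rad y) = - |y 0| ∧ Rf c |y 0| (rad y) = rad y := by
    rcases h with h | h
    · rw [h]; exact bd_x hc (rad_nonneg y) hr
    · rw [h]; exact bd_r hc (abs_nonneg _) h0
  have hq : ∀ i, |y i| ≤ rad y → rad y / rad y * y i = y i := fun i hi => by
    rcases (rad_nonneg y).eq_or_lt with h' | h'
    · rw [← h'] at hi
      rw [abs_nonpos_iff.1 hi]; simp
    · rw [div_self h'.ne', one_mul]
  apply ext3
  · change Xs c (y 0) (rad y) = _
    rw [rho_zero]
    rcases le_total 0 (y 0) with h | h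
    · rw [Xs_pos hc hr h]
      have := key.1
      rwa [abs_of_nonneg h] at this
    · rw [Xs_neg hc hr h]
      have := key.1
      rw [abs_of_nonpos h] at this
      linarith
  · change Rf c |y 0| (rad y) / rad y * y 1 = _
    rw [key.2, rho_one]
    exact hq 1 (le_max_left _ _)
  · change Rf c |y 0| (rad y) / rad y * y 2 = _
    rw [key.2, rho_two]
    exact hq 2 (le_max_right _ _)

lemma psi_zero {c : ℝ} (hc : 0 < c) {y : V} (h : 1 ≤ |y 0| ∨ 1 ≤ |y 1| ∨ 1 ≤ |y 2|) :
    psi c y = 0 := by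
  unfold psi
  rw [sub_eq_zero]
  apply Fb_boundary hc (abs_cl_le _) (rad_kap_le y)
  rcases h with h | h | h
  · left; exact abs_cl_eq h
  · right
    apply le_antisymm (rad_kap_le y)
    rw [← abs_cl_eq h]
    exact le_max_left _ _
  · right
    apply le_antisymm (rad_kap_le y)
    rw [← abs_cl_eq h]
    exact le_max_right _ _

lemma kap_of_mem {y : V} (h : ∀ i, |y i| ≤ 1) : kap y = y :=
  ext3 (cl_of_abs_le (h 0)) (cl_of_abs_le (h 1)) (cl_of_abs_le (h 2))

lemma psi_bound {c : ℝ} (hc : 0 < c) (hc' : c ≤ 1 / 16) (y : V) : ‖psi c y‖ ≤ 400 := by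
  by_cases h : 1 ≤ |y 0| ∨ 1 ≤ |y 1| ∨ 1 ≤ |y 2|
  · rw [psi_zero hc h]; norm_num
  · push Not at h
    have h1 := psi_lip hc hc' y (pt 1 0 0)
    rw [psi_zero hc (y := pt 1 0 0) (by left; simp), sub_zero] at h1
    have h2 : ‖y‖ ≤ 2 * 1 := norm_le_of_coord (by
      intro i; fin_cases i
      · exact h.1.le
      · exact h.2.1.le
      · exact h.2.2.le)
    have h3 : ‖pt 1 0 0‖ ≤ 2 * 1 := norm_le_of_coord (by
      intro i; fin_cases i <;> simp [pt])
    have := norm_sub_le y (pt 1 0 0)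
    linarith

end

end Pool.Agent.H72.FD
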