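import Pool.Agent.H72.FD.Block

/-! Derivative of the block map for MP_104731_an. -/

namespace Pool.Agent.H72.FD

open Set Filter Topology MeasureTheory

noncomputable section

lemma quot_deriv {N D : V → ℝ} {N' D' : V →L[ℝ] ℝ} {y : V} (hN : HasFDerivAt N N' y)
    (hD : HasFDerivAt D D' y) (hD0 : D y ≠ 0) (i : Fin 3) :
    HasFDerivAt (fun z : V => N z / D z * z i)
      ((y i / D y) • N' - (N y * y i / (D y) ^ 2) • D' + (N y / D y) • pr i) y := by
  have h1 := (hN.mul ((hasDerivAt_inv hD0).comp_hasFDerivAt y hD)).mul (hasFDerivAt_pr i y)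
  refine HasFDerivAt.congr_fderiv h1 ?_
  ext z
  simp only [add_apply, sub_apply,
    smul_apply, smul_eq_mul, pr_apply, Pi.mul_apply, Function.comp_apply]
  field_simp
  ring

/-- The explicit derivative of a local model. -/
lemma model_deriv {a b e a' b' e' s d1 d2 : ℝ} {y : V} (hs : s ^ 2 = 1)
    (hr : 0 < d1 * y 1 + d2 * y 2) :
    HasFDerivAt (fun z : V => pt (s * (a * (s * z 0) + b * (d1 * z 1 + d2 * z 2) + e))
      ((a' * (s * z 0) + b' * (d1 * z 1 + d2 * z 2) + e') / (d1 * z 1 + d2 * z 2) * z 1)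
      ((a' * (s * z 0) + b' * (d1 * z 1 + d2 * z 2) + e') / (d1 * z 1 + d2 * z 2) * z 2))
      (lin
        !![a, s * b * d1, s * b * d2;
          a' * s * (y 1 / (d1 * y 1 + d2 * y 2)),
          (b' - (a' * (s * y 0) + b' * (d1 * y 1 + d2 * y 2) + e') / (d1 * y 1 + d2 * y 2)) *
            d1 * (y 1 / (d1 * y 1 + d2 * y 2)) +
            (a' * (s * y 0) + b' * (d1 * y 1 + d2 * y 2) + e') / (d1 * y 1 + d2 * y 2),
          (b' - (a' * (s * y 0) + b' * (d1 * y 1 + d2 * y 2) + e') / (d1 * y 1 + d2 * y 2)) *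
            d2 * (y 1 / (d1 * y 1 + d2 * y 2));
          a' * s * (y 2 / (d1 * y 1 + d2 * y 2)),
          (b' - (a' * (s * y 0) + b' * (d1 * y 1 + d2 * y 2) + e') / (d1 * y 1 + d2 * y 2)) *
            d1 * (y 2 / (d1 * y 1 + d2 * y 2)),
          (b' - (a' * (s * y 0) + b' * (d1 * y 1 + d2 * y 2) + e') / (d1 * y 1 + d2 * y 2)) *
            d2 * (y 2 / (d1 * y 1 + d2 * y 2)) +
            (a' * (s * y 0) + b' * (d1 * y 1 + d2 * y 2) + e') / (d1 * y 1 + d2 * y 2)]) y := by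
  have hD : HasFDerivAt (fun z : V => d1 * z 1 + d2 * z 2) (d1 • pr 1 + d2 • pr 2) y :=
    ((hasFDerivAt_pr 1 y).const_mul d1).add ((hasFDerivAt_pr 2 y).const_mul d2)
  have hN : HasFDerivAt (fun z : V => a' * (s * z 0) + b' * (d1 * z 1 + d2 * z 2) + e')
      (a' • (s • pr 0) + b' • (d1 • pr 1 + d2 • pr 2)) y :=
    ((((hasFDerivAt_pr 0 y).const_mul s).const_mul a').add (hD.const_mul b')).add_const e'
  have h0 : HasFDerivAt (fun z : V => s * (a * (s * z 0) + b * (d1 * z 1 + d2 * z 2) + e))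
      (s • (a • (s • pr 0) + b • (d1 • pr 1 + d2 • pr 2))) y :=
    (((((hasFDerivAt_pr 0 y).const_mul s).const_mul a).add (hD.const_mul b)).add_const e).const_mul s
  apply hasFDerivAt_lin
  intro i
  fin_cases i
  · convert! h0 using 1
    ext z
    simp
    linear_combination (-a * z 0) * hs
  · convert! quot_deriv hN hD hr.ne' 1 using 1
    generalize d1 * y 1 + d2 * y 2 = r at hr
    ext z
    have hr' := hr.ne'
    simp
    field_simp
    ring
  · convert! quot_deriv hN hD hr.ne' 2 using 1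
    generalize d1 * y 1 + d2 * y 2 = r at hr
    ext z
    have hr' := hr.ne'
    simp
    field_simp
    ring

lemma model_det {a b a' b' s d1 d2 q u1 u2 : ℝ} (hs : s ^ 2 = 1) (hu : d1 * u1 + d2 * u2 = 1) :
    (!![a, s * b * d1, s * b * d2;
      a' * s * u1, (b' - q) * d1 * u1 + q, (b' - q) * d2 * u1;
      a' * s * u2, (b' - q) * d1 * u2, (b' - q) * d2 * u2 + q] : Matrix (Fin 3) (Fin 3) ℝ).det =
      q * (a * b' - b * a') := by
  rw [Matrix.det_fin_three]
  simp
  linear_combination (a * q * (b' - q) - b * a' * q * s ^ 2) * hu - b * a' * q * hs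

/-- Locally near generic points. -/
lemma local_signs {y : V} (h0 : y 0 ≠ 0) (h12 : |y 1| ≠ |y 2|) :
    ∃ s d1 d2 : ℝ, s ^ 2 = 1 ∧ (∀ᶠ z : V in 𝓝 y, |z 0| = s * z 0 ∧ rad z = d1 * z 1 + d2 * z 2 ∧
      ((0 ≤ z 0 ∧ s = 1) ∨ (z 0 ≤ 0 ∧ s = -1))) := by
  have ev : ∀ f g : V → ℝ, Continuous f → Continuous g → f y < g y →
      ∀ᶠ p : V in 𝓝 y, f p < g p := fun f g hf hg h =>
    (isOpen_lt hf hg).mem_nhds h
  have c0 := continuous_coord 0
  have c1 := continuous_coord 1
  have c2 := continuous_coord 2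
  have hs : ∃ s : ℝ, s ^ 2 = 1 ∧ ∀ᶠ z : V in 𝓝 y, |z 0| = s * z 0 ∧
      ((0 ≤ z 0 ∧ s = 1) ∨ (z 0 ≤ 0 ∧ s = -1)) := by
    rcases lt_or_gt_of_ne h0 with h | h
    · refine ⟨-1, by norm_num, ?_⟩
      filter_upwards [ev _ (fun _ => 0) c0 continuous_const h] with z hz
      exact ⟨by rw [abs_of_neg hz]; ring, Or.inr ⟨hz.le, rfl⟩⟩
    · refine ⟨1, by norm_num, ?_⟩
      filter_upwards [ev (fun _ => 0) _ continuous_const c0 h] with z hz
      exact ⟨by rw [abs_of_pos hz]; ring, Or.inl ⟨hz.le, rfl⟩⟩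
  have hd : ∃ d1 d2 : ℝ, ∀ᶠ z : V in 𝓝 y, rad z = d1 * z 1 + d2 * z 2 := by
    rcases lt_or_gt_of_ne h12 with h | h
    · have h2 : y 2 ≠ 0 := by
        intro h2
        rw [h2, abs_zero] at h
        exact absurd (abs_nonneg (y 1)) (not_le.2 h)
      have e1 := ev _ _ c1.abs c2.abs h
      rcases lt_or_gt_of_ne h2 with h3 | h3
      · refine ⟨0, -1, ?_⟩
        filter_upwards [e1, ev _ (fun _ => 0) c2 continuous_const h3] with z hz1 hz2
        unfold rad
        rw [max_eq_right hz1.le, abs_of_neg hz2]; ring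
      · refine ⟨0, 1, ?_⟩
        filter_upwards [e1, ev (fun _ => 0) _ continuous_const c2 h3] with z hz1 hz2
        unfold rad
        rw [max_eq_right hz1.le, abs_of_pos hz2]; ring
    · have h2 : y 1 ≠ 0 := by
        intro h2
        rw [h2, abs_zero] at h
        exact absurd (abs_nonneg (y 2)) (not_le.2 h)
      have e1 := ev _ _ c2.abs c1.abs h
      rcases lt_or_gt_of_ne h2 with h3 | h3
      · refine ⟨-1, 0, ?_⟩
        filter_upwards [e1, ev _ (fun _ => 0) c1 continuous_const h3] with z hz1 hz2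
        unfold rad
        rw [max_eq_left hz1.le, abs_of_neg hz2]; ring
      · refine ⟨1, 0, ?_⟩
        filter_upwards [e1, ev (fun _ => 0) _ continuous_const c1 h3] with z hz1 hz2
        unfold rad
        rw [max_eq_left hz1.le, abs_of_pos hz2]; ring
  obtain ⟨s, hs1, hs2⟩ := hs
  obtain ⟨d1, d2, hd⟩ := hd
  refine ⟨s, d1, d2, hs1, ?_⟩
  filter_upwards [hs2, hd] with z h1 h2
  exact ⟨h1.1, h2, h1.2⟩

lemma block_deriv {c : ℝ} (hc : 0 < c) (hc' : c ≤ 1 / 16) {y : V} (h0 : y 0 ≠ 0)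
    (h12 : |y 1| ≠ |y 2|) (hr1 : rad y < 1) (hL : LocalData c |y 0| (rad y)) :
    ∃ M : V →L[ℝ] V, HasFDerivAt (Fb c) M y ∧ 2 * c ≤ M.det ∧ M.det ≤ 22 * c := by
  obtain ⟨a, b, e, a', b', e', hev, hd1, hd2⟩ := hL
  obtain ⟨s, d1, d2, hs, hloc⟩ := local_signs h0 h12
  have hrpos : 0 < rad y := by
    rcases (rad_nonneg y).eq_or_lt with h | h
    · exfalso
      apply h12
      have h1 : |y 1| ≤ rad y := le_max_left _ _
      have h2 : |y 2| ≤ rad y := le_max_right _ _
      have := abs_nonneg (y 1)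
      have := abs_nonneg (y 2)
      linarith
    · exact h
  have hy := hloc.self_of_nhds
  have hr : 0 < d1 * y 1 + d2 * y 2 := by rw [← hy.2.1]; exact hrpos
  have hcont : Tendsto (fun z : V => (|z 0|, rad z)) (𝓝 y) (𝓝 (|y 0|, rad y)) := by
    have : Continuous (fun z : V => (|z 0|, rad z)) :=
      (continuous_coord 0).abs.prodMk continuous_rad
    exact this.tendsto y
  have hev2 := hcont.eventually hev
  have hlt : ∀ᶠ z : V in 𝓝 y, rad z < 1 :=
    (isOpen_lt continuous_rad continuous_const).mem_nhds hr1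
  have hdet := @model_det a b a' b' s d1 d2
    ((a' * (s * y 0) + b' * (d1 * y 1 + d2 * y 2) + e') / (d1 * y 1 + d2 * y 2))
    (y 1 / (d1 * y 1 + d2 * y 2)) (y 2 / (d1 * y 1 + d2 * y 2)) hs (by
      field_simp)
  refine ⟨_, (model_deriv (a := a) (b := b) (e := e) (a' := a') (b' := b') (e' := e') hs hr).congr_of_eventuallyEq ?_, ?_⟩
  · filter_upwards [hloc, hev2, hlt] with z hz1 hz2 hz3
    obtain ⟨k1, k2, k3⟩ := hz1
    apply ext3
    · change Xs c (z 0) (rad z) = s * (a * (s * z 0) + b * (d1 * z 1 + d2 * z 2) + e)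
      rw [← k2, ← k1, ← hz2.1]
      rcases k3 with ⟨h, h'⟩ | ⟨h, h'⟩
      · rw [Xs_pos hc hz3.le h, abs_of_nonneg h, h', one_mul]
      · rw [Xs_neg hc hz3.le h, abs_of_nonpos h, h']; ring
    · change Rf c |z 0| (rad z) / rad z * z 1 = _
      rw [pt_one, ← k2, ← k1, ← hz2.2]
    · change Rf c |z 0| (rad z) / rad z * z 2 = _
      rw [pt_two, ← k2, ← k1, ← hz2.2]
  · rw [lin_det, hdet]
    have hself := hev.self_of_nhds
    simp only at hself
    have hq : (a' * (s * y 0) + b' * (d1 * y 1 + d2 * y 2) + e') / (d1 * y 1 + d2 * y 2) =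
        Rf c |y 0| (rad y) / rad y := by
      rw [hself.2, ← hy.2.1, ← hy.1]
    rw [hq]
    have hb := Rf_bounds hc hc' (abs_nonneg (y 0)) hrpos.le hr1.le
    have hq1 : 1 ≤ Rf c |y 0| (rad y) / rad y := by
      rw [le_div_iff₀ hrpos]; linarith
    have hq2 : Rf c |y 0| (rad y) / rad y ≤ 17 / 8 := by
      rw [div_le_iff₀ hrpos]; linarith
    have hpos : 0 < a * b' - b * a' := by linarith
    constructor
    · nlinarith [mul_le_mul_of_nonneg_right hq1 hpos.le]
    · nlinarith [mul_le_mul_of_nonneg_right hq2 hpos.le]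

end

end Pool.Agent.H72.FD
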