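import Pool.Agent.H72.FD.Weights

/-! Quantitative derivative estimates for MP_104731_an. -/

namespace Pool.Agent.H72.FD

open Set Filter Topology MeasureTheory

noncomputable section

/-- Quantitative differentiability of the partial map at scale `k`. -/
def Good (c a : ℕ → ℝ) (k m : ℕ) (x : V) : Prop :=
  ∃ (M : V →L[ℝ] V) (C : ℝ), HasFDerivAt (hh c (k + 1) m) M x ∧ 0 < M.det ∧ 0 ≤ C ∧
    (∀ z, nt (M z) ≤ C * ns z) ∧
    C ^ 3 * c (m + k) * a m ^ 2 ≤ 10 ^ 9 * a (m + k) ^ 2 * M.det ∧ C ≤ 1000 * 3 ^ k ∧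
    M.det * a m ^ 3 ≤ 22 * 16 ^ k * c (m + k) * a (m + k) ^ 3

lemma hh_one_lip {c : ℕ → ℝ} (hc : ∀ m, 0 < c m) (hc' : ∀ m, c m ≤ 1 / 16) (m : ℕ) (x y : V) :
    ‖hh c 1 m x - hh c 1 m y‖ ≤ 106 * ‖x - y‖ := by
  have e : hh c 1 m x - hh c 1 m y = rho (x - y) + (psi (c m) x - psi (c m) y) := by
    simp only [hh, P, map_sub, add_zero, map_zero]
    abel
  rw [e]
  refine (norm_add_le _ _).trans ?_
  have := rho_le (x - y)
  have := psi_lip (hc m) (hc' m) x y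
  linarith

lemma good_zero {c a : ℕ → ℝ} (hc : ∀ m, 0 < c m) (hc' : ∀ m, c m ≤ 1 / 16)
    (ha : ∀ m, 1 ≤ a m) (m : ℕ) :
    ∀ᵐ x : V, x ∈ Rm 0 → x ∉ Rm 1 → Good c a 0 m x := by
  filter_upwards [ae_coord_ne 0 0, ae_abs_coord_ne 0 1, ae_abs_coord_ne 0 (1 / 4),
    ae_abs_coord_ne 0 (1 / 2), ae_abs_lin2_ne 1 2 (by decide) 1 0, ae_rad_ne 0 1,
    ae_rad_ne (-1) (3 / 4), ae_rad_ne (-1 / 2) (3 / 4), ae_rad_ne (-1) 1, ae_rad_ne 1 0,
    ae_rad_ne 2 (-1), ae_rad_ne 2 0] with x g0 g1 g2 g3 g4 g5 g6 g7 g8 g9 g10 g11 hx hx1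
  have hx0 : |x 0| < 1 := lt_of_le_of_ne hx.1 g1
  have hr : rad x < 1 := lt_of_le_of_ne (max_le hx.2.1 hx.2.2) (fun h => g5 (by rw [h]; ring))
  have h12 : |x 1| ≠ |x 2| := fun h => g4 (by rw [h]; ring)
  have hxi : x ∈ cubi := ⟨hx0, (le_max_left _ _).trans_lt hr, (le_max_right _ _).trans_lt hr⟩
  have hrpos : 0 < rad x := by
    rcases (rad_nonneg x).eq_or_lt with h | h
    · exfalso
      apply h12
      have h1 : |x 1| ≤ rad x := le_max_left _ _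
      have h2 : |x 2| ≤ rad x := le_max_right _ _
      have := abs_nonneg (x 1)
      have := abs_nonneg (x 2)
      linarith
    · exact h
  have hQ : ¬ (1 / 4 ≤ |x 0| ∧ |x 0| ≤ 1 / 2 ∧ rad x ≤ 1 / 2) := by
    rintro ⟨q1, q2, q3⟩
    apply hx1
    have q4 : |x 1| ≤ 1 / 2 := (le_max_left _ _).trans q3
    have q5 : |x 2| ≤ 1 / 2 := (le_max_right _ _).trans q3
    rcases le_total 0 (x 0) with h | h
    · left
      rw [abs_of_nonneg h] at q1 q2
      exact (bmap_mem_cub_iff (Or.inl rfl)).2 ⟨by linarith, by linarith, q4, q5⟩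
    · right
      rw [abs_of_nonpos h] at q1 q2
      exact (bmap_mem_cub_iff (Or.inr rfl)).2 ⟨by linarith, by linarith, q4, q5⟩
  have hL := local_data (hc m) (hc' m) (abs_pos.2 g0) hx0 hrpos hr hQ g2 g3
    (fun h => g6 (by rw [h]; ring)) (fun h => g7 (by rw [h]; ring)) (fun h => g8 (by rw [h]; ring))
    (fun h => g9 (by rw [h]; ring)) (fun h => g10 (by rw [h]; ring)) (fun h => g11 (by rw [h]; ring))
  obtain ⟨M, hM, hd1, hd2⟩ := block_deriv (hc m) (hc' m) g0 h12 hr hL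
  have hcm := hc m
  have hMh : HasFDerivAt (hh c 1 m) M x := by
    refine hM.congr_of_eventuallyEq ?_
    filter_upwards [isOpen_cubi.mem_nhds hxi] with z hz
    have hk : kap z = z := kap_of_mem (by
      intro i; fin_cases i
      · exact hz.1.le
      · exact hz.2.1.le
      · exact hz.2.2.le)
    simp only [hh, P, add_zero, map_zero, psi, hk]
    abel
  have hMn : ‖M‖ ≤ 106 := hMh.le_of_lip' (by norm_num)
    (Eventually.of_forall fun z => hh_one_lip hc hc' m z x)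
  refine ⟨M, 1000, hMh, by linarith, by norm_num, fun z => ?_, ?_, by norm_num, ?_⟩
  · have h1 := nt_le_norm (M z)
    have h2 := M.le_opNorm z
    have h3 := mul_le_mul_of_nonneg_right hMn (norm_nonneg z)
    have h4 := norm_le_ns z
    have h5 := ns_nonneg z
    linarith
  · rw [add_zero]
    have : 0 ≤ (M.det - c m) * a m ^ 2 := mul_nonneg (by linarith) (sq_nonneg _)
    nlinarith
  · rw [add_zero, pow_zero, mul_one]
    have h1 : 0 ≤ a m ^ 3 := pow_nonneg (by linarith [ha m]) 3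
    exact mul_le_mul_of_nonneg_right hd2 h1

lemma good_step {c a : ℕ → ℝ} (hc : ∀ m, 0 < c m) (hc' : ∀ m, c m ≤ 1 / 16)
    (ha : ∀ m, 1 ≤ a m) (hca : ∀ m, (1 + 2 * c m) * a m ≤ a (m + 1)) (k m : ℕ) {s : ℝ}
    (hs : s = 1 ∨ s = -1) {x : V} (hx : bmap s x ∈ cubi) (hg : Good c a k (m + 1) (bmap s x)) :
    Good c a (k + 1) m x := by
  obtain ⟨M, C, hM, hdet, hC, hMC, h3, hCk, h4⟩ := hg
  have hcm := hc m
  have hcm' := hc' m
  have ham := ha m
  have ham1 := ha (m + 1)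
  have hcam := hca m
  have hamk := ha (m + 1 + k)
  have hck := hc (m + 1 + k)
  have ht := tau_pos
  set u := c m with hu
  have hidx : m + (k + 1) = m + 1 + k := by ring
  have hT : 0 ≤ tau * (1 + 2 * u) * (8 * tau ^ 4) := by positivity
  have hdet' : ((ll u).comp (M.comp bl)).det = 16 * (1 + 2 * u) * (1 + u) ^ 2 * M.det := by
    rw [det_comp, det_comp, ll_det, bl_det]; ring
  have hT3 : (tau * (1 + 2 * u) * (8 * tau ^ 4)) ^ 3 = 16 * (1 + 2 * u) ^ 3 := by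
    rw [show (tau * (1 + 2 * u) * (8 * tau ^ 4)) ^ 3 = 512 * (tau ^ 3) ^ 5 * (1 + 2 * u) ^ 3 by ring,
      tau_cube]
    ring
  refine ⟨(ll u).comp (M.comp bl), tau * (1 + 2 * u) * (8 * tau ^ 4) * C, ?_, ?_, ?_, ?_, ?_, ?_, ?_⟩
  · have h1 : HasFDerivAt (fun z => ll u (hh c (k + 1) (m + 1) (bmap s z)) - pt (s / 2) 0 0)
        ((ll u).comp (M.comp bl)) x :=
      ((ll u).hasFDerivAt.comp x (hM.comp x (bmap_deriv s x))).sub_const _
    refine h1.congr_of_eventuallyEq ?_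
    have hop : bmap s ⁻¹' cubi ∈ 𝓝 x := (isOpen_cubi.preimage (continuous_bmap s)).mem_nhds hx
    filter_upwards [hop] with z hz
    exact hh_succ hc hc' (k + 1) m hs (cubi_sub hz)
  · rw [hdet']; positivity
  · positivity
  · intro z
    have e1 := nt_ll hcm (M (bl z))
    have e2 := mul_le_mul_of_nonneg_left (hMC (bl z)) (by positivity : 0 ≤ tau * (1 + 2 * u))
    have e3 := mul_le_mul_of_nonneg_left (ns_bl z) (by positivity : 0 ≤ tau * (1 + 2 * u) * C)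
    change nt (ll u (M (bl z))) ≤ _
    calc nt (ll u (M (bl z))) ≤ _ := e1
      _ ≤ _ := e2
      _ = tau * (1 + 2 * u) * C * ns (bl z) := by ring
      _ ≤ _ := e3
      _ = _ := by ring
  · rw [hidx, mul_pow, hT3, hdet']
    have hC3 : 0 ≤ C ^ 3 * c (m + 1 + k) := by positivity
    have e1 : ((1 + 2 * u) * a m) ^ 2 ≤ a (m + 1) ^ 2 := pow_le_pow_left₀ (by positivity) hcam 2
    have e2 := mul_le_mul_of_nonneg_left e1 (by positivity : 0 ≤ 16 * (1 + 2 * u) * (C ^ 3 * c (m + 1 + k)))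
    have e3 := mul_le_mul_of_nonneg_left h3 (by positivity : 0 ≤ 16 * (1 + 2 * u))
    have e4 : 1 ≤ (1 + u) ^ 2 := by nlinarith
    have e5 := mul_le_mul_of_nonneg_right e4
      (by positivity : 0 ≤ 16 * (1 + 2 * u) * (10 ^ 9 * a (m + 1 + k) ^ 2 * M.det))
    calc 16 * (1 + 2 * u) ^ 3 * C ^ 3 * c (m + 1 + k) * a m ^ 2
        = 16 * (1 + 2 * u) * (C ^ 3 * c (m + 1 + k)) * ((1 + 2 * u) * a m) ^ 2 := by ring
      _ ≤ _ := e2
      _ = 16 * (1 + 2 * u) * (C ^ 3 * c (m + 1 + k) * a (m + 1) ^ 2) := by ring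
      _ ≤ _ := e3
      _ = 1 * (16 * (1 + 2 * u) * (10 ^ 9 * a (m + 1 + k) ^ 2 * M.det)) := by ring
      _ ≤ _ := e5
      _ = _ := by ring
  · have e1 := mul_le_mul (fac_le' hcm hcm') hCk hC (by norm_num)
    rw [pow_succ (3 : ℝ) k]
    linarith
  · rw [hidx, hdet']
    have e1 : ((1 + 2 * u) * a m) ^ 3 ≤ a (m + 1) ^ 3 := pow_le_pow_left₀ (by positivity) hcam 3
    have e2 := mul_le_mul_of_nonneg_left e1 (by positivity : 0 ≤ 16 * M.det)
    have e3 : (1 + u) ^ 2 ≤ (1 + 2 * u) ^ 2 := pow_le_pow_left₀ (by positivity) (by linarith) 2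
    have e4 := mul_le_mul_of_nonneg_left e3 (by positivity : 0 ≤ 16 * (1 + 2 * u) * M.det * a m ^ 3)
    calc 16 * (1 + 2 * u) * (1 + u) ^ 2 * M.det * a m ^ 3
        = 16 * (1 + 2 * u) * M.det * a m ^ 3 * (1 + u) ^ 2 := by ring
      _ ≤ _ := e4
      _ = 16 * M.det * ((1 + 2 * u) * a m) ^ 3 := by ring
      _ ≤ _ := e2
      _ = 16 * (M.det * a (m + 1) ^ 3) := by ring
      _ ≤ 16 * (22 * 16 ^ k * c (m + 1 + k) * a (m + 1 + k) ^ 3) := by linarith
      _ = _ := by ring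

/-- The boundary of the cube is a null set. -/
lemma ae_cubi : ∀ᵐ x : V, x ∈ cub → x ∈ cubi := by
  filter_upwards [ae_abs_coord_ne 0 1, ae_abs_coord_ne 1 1, ae_abs_coord_ne 2 1] with x h0 h1 h2 hx
  exact ⟨lt_of_le_of_ne hx.1 h0, lt_of_le_of_ne hx.2.1 h1, lt_of_le_of_ne hx.2.2 h2⟩

lemma good_ae {c a : ℕ → ℝ} (hc : ∀ m, 0 < c m) (hc' : ∀ m, c m ≤ 1 / 16)
    (ha : ∀ m, 1 ≤ a m) (hca : ∀ m, (1 + 2 * c m) * a m ≤ a (m + 1)) (k : ℕ) :
    ∀ m, ∀ᵐ x : V, x ∈ Rm k → x ∉ Rm (k + 1) → Good c a k m x := by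
  induction k with
  | zero => exact good_zero hc hc' ha
  | succ k ih =>
    intro m
    filter_upwards [ae_bmap 1 (ih (m + 1)), ae_bmap (-1) (ih (m + 1)), ae_bmap 1 ae_cubi,
      ae_bmap (-1) ae_cubi] with x g1 g2 g3 g4 hx hx1
    have n1 : bmap 1 x ∉ Rm (k + 1) := fun h => hx1 (Or.inl h)
    have n2 : bmap (-1) x ∉ Rm (k + 1) := fun h => hx1 (Or.inr h)
    rcases hx with hx | hx
    · exact good_step hc hc' ha hca k m (Or.inl rfl)
        (g3 (Rm_anti (Nat.zero_le k) hx)) (g1 hx n1)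
    · exact good_step hc hc' ha hca k m (Or.inr rfl)
        (g4 (Rm_anti (Nat.zero_le k) hx)) (g2 hx n2)

end

end Pool.Agent.H72.FD
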