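import Pool.Agent.H72.FD.BlockD

/-! The iteration for MP_104731_an. -/

namespace Pool.Agent.H72.FD

open Set Filter Topology MeasureTheory

noncomputable section

/-- The closed cube. -/
def cub : Set V := {y | |y 0| ≤ 1 ∧ |y 1| ≤ 1 ∧ |y 2| ≤ 1}

/-- The open cube. -/
def cubi : Set V := {y | |y 0| < 1 ∧ |y 1| < 1 ∧ |y 2| < 1}

lemma cubi_sub : cubi ⊆ cub := fun _ h => ⟨h.1.le, h.2.1.le, h.2.2.le⟩

lemma isOpen_cubi : IsOpen cubi :=
  (isOpen_lt (continuous_coord 0).abs continuous_const).inter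
    ((isOpen_lt (continuous_coord 1).abs continuous_const).inter
      (isOpen_lt (continuous_coord 2).abs continuous_const))

lemma isClosed_cub : IsClosed cub :=
  (isClosed_le (continuous_coord 0).abs continuous_const).inter
    ((isClosed_le (continuous_coord 1).abs continuous_const).inter
      (isClosed_le (continuous_coord 2).abs continuous_const))

lemma not_cubi {y : V} (h : y ∉ cubi) : 1 ≤ |y 0| ∨ 1 ≤ |y 1| ∨ 1 ≤ |y 2| := by
  by_contra hcon
  push Not at hcon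
  exact h hcon

/-- Linear part of the expansion. -/
def bl : V →L[ℝ] V := lin !![0, 2, 0; 0, 0, 2; 8, 0, 0]

@[simp] lemma bl_zero (y : V) : bl y 0 = 2 * y 1 := by simp [bl, lin_apply]
@[simp] lemma bl_one (y : V) : bl y 1 = 2 * y 2 := by simp [bl, lin_apply]
@[simp] lemma bl_two (y : V) : bl y 2 = 8 * y 0 := by simp [bl, lin_apply]

lemma bl_det : bl.det = 32 := by
  unfold bl
  rw [lin_det, Matrix.det_fin_three]
  simp
  norm_num

/-- The expansions. -/
def bmap (s : ℝ) (y : V) : V := bl y - pt 0 0 (3 * s)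

@[simp] lemma bmap_zero (s : ℝ) (y : V) : bmap s y 0 = 2 * y 1 := by simp [bmap]
@[simp] lemma bmap_one (s : ℝ) (y : V) : bmap s y 1 = 2 * y 2 := by simp [bmap]
@[simp] lemma bmap_two (s : ℝ) (y : V) : bmap s y 2 = 8 * y 0 - 3 * s := by simp [bmap]

lemma continuous_bmap (s : ℝ) : Continuous (bmap s) := bl.continuous.sub continuous_const

lemma bmap_sub (s : ℝ) (x y : V) : bmap s x - bmap s y = bl (x - y) := by
  unfold bmap
  rw [map_sub]
  abel

lemma bmap_deriv (s : ℝ) (x : V) : HasFDerivAt (bmap s) bl x :=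
  bl.hasFDerivAt.sub_const _

/-- Linear contraction of the target. -/
def ll (c : ℝ) : V →L[ℝ] V := lin !![0, 0, -(1 / 2 + c); -(1 + c), 0, 0; 0, 1 + c, 0]

@[simp] lemma ll_zero (c : ℝ) (y : V) : ll c y 0 = -(1 / 2 + c) * y 2 := by simp [ll, lin_apply]
@[simp] lemma ll_one (c : ℝ) (y : V) : ll c y 1 = -(1 + c) * y 0 := by simp [ll, lin_apply]
@[simp] lemma ll_two (c : ℝ) (y : V) : ll c y 2 = (1 + c) * y 1 := by simp [ll, lin_apply]

lemma ll_det (c : ℝ) : (ll c).det = 1 / 2 * (1 + 2 * c) * (1 + c) ^ 2 := by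
  unfold ll
  rw [lin_det, Matrix.det_fin_three]
  simp
  ring

lemma bmap_mem_cub {s : ℝ} (hs : s = 1 ∨ s = -1) {y : V} (h : bmap s y ∈ cub) :
    1 / 4 ≤ s * y 0 ∧ s * y 0 ≤ 1 / 2 ∧ |y 1| ≤ 1 / 2 ∧ |y 2| ≤ 1 / 2 := by
  obtain ⟨h0, h1, h2⟩ := h
  rw [bmap_zero, abs_le] at h0
  rw [bmap_one, abs_le] at h1
  rw [bmap_two, abs_le] at h2
  rw [abs_le, abs_le]
  rcases hs with rfl | rfl
  · refine ⟨?_, ?_, ⟨?_, ?_⟩, ?_, ?_⟩ <;> linarith
  · refine ⟨?_, ?_, ⟨?_, ?_⟩, ?_, ?_⟩ <;> linarith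

lemma bmap_mem_cub_iff {s : ℝ} (hs : s = 1 ∨ s = -1) {y : V} :
    bmap s y ∈ cub ↔ 1 / 4 ≤ s * y 0 ∧ s * y 0 ≤ 1 / 2 ∧ |y 1| ≤ 1 / 2 ∧ |y 2| ≤ 1 / 2 := by
  refine ⟨bmap_mem_cub hs, fun h => ?_⟩
  rw [abs_le, abs_le] at h
  obtain ⟨h0, h1, h2, h3⟩ := h
  refine ⟨?_, ?_, ?_⟩
  · rw [bmap_zero, abs_le]; constructor <;> linarith
  · rw [bmap_one, abs_le]; constructor <;> linarith
  · rw [bmap_two, abs_le]
    rcases hs with rfl | rfl
    · constructor <;> linarith
    · constructor <;> linarith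

lemma bmap_mem_cubi {s : ℝ} (hs : s = 1 ∨ s = -1) {y : V} (h : bmap s y ∈ cub) : y ∈ cubi := by
  obtain ⟨h0, h1, h2, h3⟩ := bmap_mem_cub hs h
  refine ⟨?_, by linarith, by linarith⟩
  rw [abs_lt]
  rcases hs with rfl | rfl
  · constructor <;> linarith
  · constructor <;> linarith

lemma bmap_disj {y : V} (h : bmap 1 y ∈ cub) (h' : bmap (-1) y ∈ cub) : False := by
  obtain ⟨h0, -⟩ := bmap_mem_cub (Or.inl rfl) h
  obtain ⟨h1, -⟩ := bmap_mem_cub (Or.inr rfl) h'
  linarith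

lemma Fb_affine {c : ℝ} (hc : 0 < c) (hc' : c ≤ 1 / 16) {s : ℝ} (hs : s = 1 ∨ s = -1) {y : V}
    (h : bmap s y ∈ cub) : Fb c y = ll c (rho (bmap s y)) - pt (s / 2) 0 0 := by
  obtain ⟨h0, h1, h2, h3⟩ := bmap_mem_cub hs h
  have hr0 := rad_nonneg y
  have hr : rad y ≤ 1 / 2 := max_le h2 h3
  have hy : |y 0| = s * y 0 := by
    rcases hs with rfl | rfl
    · rw [abs_of_nonneg (by linarith)]; ring
    · rw [abs_of_nonpos (by linarith)]; ring
  have key := regQ hc hc' (x := |y 0|) (r := rad y) (by linarith) (by linarith) hr0 hr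
  have hq : ∀ i, |y i| ≤ rad y → 2 * (1 + c) * rad y / rad y * y i = 2 * (1 + c) * y i := fun i hi => by
    rcases hr0.eq_or_lt with h' | h'
    · rw [← h'] at hi
      rw [abs_nonpos_iff.1 hi]; simp
    · rw [mul_div_assoc, div_self h'.ne', mul_one]
  apply ext3
  · change Xs c (y 0) (rad y) = (ll c (rho (bmap s y))) 0 - s / 2
    simp only [ll_zero, rho_two, bmap_two]
    rcases hs with rfl | rfl
    · rw [Xs_pos hc (by linarith) (by linarith)]
      have := key.1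
      rw [hy, one_mul] at this
      rw [this]; ring
    · rw [Xs_neg hc (by linarith) (by linarith)]
      have := key.1
      rw [hy, neg_one_mul] at this
      rw [this]; ring
  · change Rf c |y 0| (rad y) / rad y * y 1 = (ll c (rho (bmap s y))) 1 - 0
    simp only [ll_one, rho_zero, bmap_zero]
    rw [key.2, hq 1 (le_max_left _ _)]
    ring
  · change Rf c |y 0| (rad y) / rad y * y 2 = (ll c (rho (bmap s y))) 2 - 0
    simp only [ll_two, rho_one, bmap_one]
    rw [key.2, hq 2 (le_max_right _ _)]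
    ring

/-- The remaining sets. -/
def Rm : ℕ → Set V
  | 0 => cub
  | k + 1 => bmap 1 ⁻¹' Rm k ∪ bmap (-1) ⁻¹' Rm k

lemma isClosed_Rm (k : ℕ) : IsClosed (Rm k) := by
  induction k with
  | zero => exact isClosed_cub
  | succ k ih =>
    exact (ih.preimage (continuous_bmap 1)).union (ih.preimage (continuous_bmap (-1)))

lemma Rm_succ_sub (k : ℕ) : Rm (k + 1) ⊆ Rm k := by
  induction k with
  | zero =>
    rintro x (h | h)
    · exact cubi_sub (bmap_mem_cubi (Or.inl rfl) h)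
    · exact cubi_sub (bmap_mem_cubi (Or.inr rfl) h)
  | succ k ih =>
    rintro x (h | h)
    · exact Or.inl (ih h)
    · exact Or.inr (ih h)

lemma Rm_anti : Antitone Rm := antitone_nat_of_succ_le Rm_succ_sub

/-- The partial sums of the construction. -/
def P (c : ℕ → ℝ) : ℕ → ℕ → V → V
  | 0, _, _ => 0
  | N + 1, m, x => psi (c m) x + ll (c m) (P c N (m + 1) (bmap 1 x) + P c N (m + 1) (bmap (-1) x))

lemma P_off {c : ℕ → ℝ} (hc : ∀ m, 0 < c m) (N : ℕ) : ∀ m (y : V), y ∉ cubi → P c N m y = 0 := by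
  induction N with
  | zero => intro m y _; rfl
  | succ N ih =>
    intro m y hy
    have h1 : bmap 1 y ∉ cubi := fun h => hy (bmap_mem_cubi (Or.inl rfl) (cubi_sub h))
    have h2 : bmap (-1) y ∉ cubi := fun h => hy (bmap_mem_cubi (Or.inr rfl) (cubi_sub h))
    simp only [P]
    rw [ih _ _ h1, ih _ _ h2, psi_zero (hc m) (not_cubi hy)]
    simp

lemma P_stable {c : ℕ → ℝ} (hc : ∀ m, 0 < c m) (N : ℕ) :
    ∀ M m (y : V), N ≤ M → y ∉ Rm N → P c M m y = P c N m y := by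
  induction N with
  | zero =>
    intro M m y _ hy
    rw [P_off hc M m y (fun h => hy (cubi_sub h))]
    rfl
  | succ N ih =>
    intro M m y hM hy
    obtain ⟨M, rfl⟩ : ∃ M', M = M' + 1 := ⟨M - 1, by omega⟩
    have h1 : bmap 1 y ∉ Rm N := fun h => hy (Or.inl h)
    have h2 : bmap (-1) y ∉ Rm N := fun h => hy (Or.inr h)
    simp only [P]
    rw [ih M (m + 1) _ (by omega) h1, ih M (m + 1) _ (by omega) h2]

/-- The partial maps on the cube. -/
def hh (c : ℕ → ℝ) (N m : ℕ) (x : V) : V := rho x + P c N m x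

lemma hh_succ {c : ℕ → ℝ} (hc : ∀ m, 0 < c m) (hc' : ∀ m, c m ≤ 1 / 16) (N m : ℕ) {s : ℝ}
    (hs : s = 1 ∨ s = -1) {x : V} (hx : bmap s x ∈ cub) :
    hh c (N + 1) m x = ll (c m) (hh c N (m + 1) (bmap s x)) - pt (s / 2) 0 0 := by
  have hsum : P c N (m + 1) (bmap 1 x) + P c N (m + 1) (bmap (-1) x) = P c N (m + 1) (bmap s x) := by
    rcases hs with rfl | rfl
    · rw [P_off hc N (m + 1) (bmap (-1) x) (fun h => bmap_disj hx (cubi_sub h)), add_zero]
    · rw [P_off hc N (m + 1) (bmap 1 x) (fun h => bmap_disj (cubi_sub h) hx), zero_add]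
  have hxi := cubi_sub (bmap_mem_cubi hs hx)
  have hk : kap x = x := kap_of_mem (by
    intro i; fin_cases i
    · exact hxi.1
    · exact hxi.2.1
    · exact hxi.2.2)
  unfold hh
  simp only [P]
  rw [hsum]
  unfold psi
  rw [hk, Fb_affine (hc m) (hc' m) hs hx, map_add]
  abel

end

end Pool.Agent.H72.FD
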