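import Pool.Agent.H72.FD.Outer

/-! The limit map for MP_104731_an. -/

namespace Pool.Agent.H72.FD

open Set Filter Topology MeasureTheory
open scoped NNReal ENNReal ContDiff

noncomputable section

lemma exists_lim {c : ℕ → ℝ} (hc : ∀ m, 0 < c m) (hc' : ∀ m, c m ≤ 1 / 16) :
    ∃ g : V → V, (∀ N x, ‖g x - P c N 0 x‖ ≤ 16000 * (9 / 10) ^ N) ∧
      ∀ N x, x ∉ Rm N → g x = P c N 0 x := by
  have hd : ∀ x N, dist (P c N 0 x) (P c (N + 1) 0 x) ≤ 1600 * (9 / 10) ^ N := fun x N => by
    rw [dist_comm, dist_eq_norm]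
    exact P_cauchy hc hc' N 0 x
  have hex : ∀ x, ∃ y, Tendsto (fun N => P c N 0 x) atTop (𝓝 y) := fun x =>
    cauchySeq_tendsto_of_complete (cauchySeq_of_le_geometric (9 / 10) 1600 (by norm_num) (hd x))
  choose g hg using hex
  refine ⟨g, fun N x => ?_, fun N x hx => ?_⟩
  · have := dist_le_of_le_geometric_of_tendsto (9 / 10) 1600 (by norm_num) (hd x) (hg x) N
    rw [dist_comm, dist_eq_norm] at this
    refine this.trans (le_of_eq ?_)
    ring
  · refine tendsto_nhds_unique (hg x) ?_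
    refine tendsto_const_nhds.congr' ?_
    filter_upwards [eventually_ge_atTop N] with M hM
    exact (P_stable hc N M 0 x hM hx).symm

/-- Almost every point of the cube leaves the remaining sets. -/
lemma ae_leave : ∀ᵐ x : V, ∃ k, x ∉ Rm k := by
  rw [ae_iff]
  have hsub : ∀ k, {x : V | ¬ ∃ k, x ∉ Rm k} ⊆ Rm k := fun k x hx => by
    by_contra h
    exact hx ⟨k, h⟩
  have hle : ∀ k : ℕ, volume {x : V | ¬ ∃ k, x ∉ Rm k} ≤ ENNReal.ofReal ((1 / 16) ^ k) * volume cub :=
    fun k => (measure_mono (hsub k)).trans (vol_Rm k)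
  have ht : Tendsto (fun k : ℕ => ENNReal.ofReal ((1 / 16) ^ k) * volume cub) atTop (𝓝 0) := by
    have h1 : Tendsto (fun k : ℕ => ((1:ℝ) / 16) ^ k) atTop (𝓝 0) :=
      tendsto_pow_atTop_nhds_zero_of_lt_one (by norm_num) (by norm_num)
    have h2 : Tendsto (fun k : ℕ => ENNReal.ofReal (((1:ℝ) / 16) ^ k)) atTop (𝓝 0) := by
      have := (ENNReal.continuous_ofReal.tendsto 0).comp h1
      simpa [Function.comp_def] using this
    have h3 := ENNReal.Tendsto.mul_const h2 (b := volume cub) (Or.inr vol_cub.ne)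
    simpa using h3
  exact le_antisymm (ge_of_tendsto' ht hle) zero_le

/-- Derivative structure of the limit map. -/
def Struct (c : ℕ → ℝ) (B : ℝ) (f : V → V) (x : V) : Prop :=
  (∃ M : V →L[ℝ] V, HasFDerivAt f M x ∧ 0 < M.det ∧ ‖M‖ ^ 3 ≤ B * M.det ∧ ‖M‖ ≤ B ∧ M.det ≤ B) ∨
  ∃ k, x ∈ Rm k ∧ ∃ M : V →L[ℝ] V, HasFDerivAt f M x ∧ 0 < M.det ∧ ‖M‖ ^ 3 * c k ≤ B * M.det ∧
    ‖M‖ ≤ B * 3 ^ k ∧ M.det ≤ B * 16 ^ k * c k

lemma opNorm_le_of_nt {M : V →L[ℝ] V} {C : ℝ} (hC : 0 ≤ C) (h : ∀ z, nt (M z) ≤ C * ns z) :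
    ‖M‖ ≤ 4 * C := by
  refine ContinuousLinearMap.opNorm_le_bound _ (by positivity) fun z => ?_
  have h1 := norm_le_nt (M z)
  have h2 := h z
  have h3 := mul_le_mul_of_nonneg_left (ns_le_norm z) hC
  linarith

theorem construct {c : ℕ → ℝ} (hc : ∀ m, 0 < c m) (hc' : ∀ m, c m ≤ 1 / 16) (hs : Summable c) :
    ∃ (f : V → V) (B : ℝ), 1 ≤ B ∧ Continuous f ∧ (∀ x, ‖f x‖ ≤ B) ∧ (∀ x, x ∉ cub → f x = base x) ∧
      (∃ F : ℕ → V → V, (∀ N, LipschitzWith (4000 * 7 ^ N) (F N)) ∧
        (∀ N x, ‖f x - F N x‖ ≤ 16000 * (9 / 10) ^ N) ∧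
        ∀ N x, x ∉ Rm N → ∀ᶠ z in 𝓝 x, f z = F N z) ∧
      ∀ᵐ x, Struct c B f x := by
  obtain ⟨g, hg1, hg2⟩ := exists_lim hc hc'
  set a : ℕ → ℝ := fun m => Real.exp (2 * ∑ i ∈ Finset.range m, c i) with ha
  set A : ℝ := Real.exp (2 * ∑' i, c i) with hA
  have ha1 : ∀ m, 1 ≤ a m := fun m => by
    rw [ha]
    apply Real.one_le_exp
    have : 0 ≤ ∑ i ∈ Finset.range m, c i := Finset.sum_nonneg fun i _ => (hc i).le
    linarith
  have haA : ∀ m, a m ≤ A := fun m => by
    rw [ha, hA]
    apply Real.exp_le_exp.2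
    have := hs.sum_le_tsum (Finset.range m) (fun i _ => (hc i).le)
    linarith
  have hca : ∀ m, (1 + 2 * c m) * a m ≤ a (m + 1) := fun m => by
    simp only [ha]
    rw [Finset.sum_range_succ, mul_add, Real.exp_add, mul_comm (Real.exp _)]
    apply mul_le_mul_of_nonneg_right _ (Real.exp_pos _).le
    have := Real.add_one_le_exp (2 * c m)
    linarith
  have hA1 : 1 ≤ A := (ha1 0).trans (haA 0)
  set B : ℝ := 10 ^ 11 * A ^ 3 with hB
  have hA3 : 1 ≤ A ^ 3 := one_le_pow₀ hA1
  have hB1 : 10 ^ 11 ≤ B := by rw [hB]; linarith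
  have hFL : ∀ N, LipschitzWith (4000 * 7 ^ N) (fun x => base x + P c N 0 x) := fun N => by
    refine LipschitzWith.of_dist_le_mul fun x y => ?_
    rw [dist_eq_norm, dist_eq_norm]
    have h1 := base_lip x y
    have h2 := P_lip hc hc' N 0 x y
    have h3 : (1:ℝ) ≤ 7 ^ N := one_le_pow₀ (by norm_num)
    have h4 := norm_nonneg (x - y)
    have h5 : base x + P c N 0 x - (base y + P c N 0 y) = (base x - base y) +
      (P c N 0 x - P c N 0 y) := by abel
    rw [h5]
    refine (norm_add_le _ _).trans ?_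
    push_cast
    nlinarith [mul_le_mul_of_nonneg_right h3 h4]
  have hfF : ∀ N x, ‖(base x + g x) - (base x + P c N 0 x)‖ ≤ 16000 * (9 / 10) ^ N := fun N x => by
    have : (base x + g x) - (base x + P c N 0 x) = g x - P c N 0 x := by abel
    rw [this]
    exact hg1 N x
  have hε0 : Tendsto (fun N : ℕ => (16000:ℝ) * (9 / 10) ^ N) atTop (𝓝 0) := by
    have := (tendsto_pow_atTop_nhds_zero_of_lt_one (r := (9:ℝ) / 10) (by norm_num) (by norm_num)).const_mul 16000
    simpa using this
  refine ⟨fun x => base x + g x, B, by linarith, ?_, ?_, ?_, ⟨fun N x => base x + P c N 0 x, hFL,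
    hfF, ?_⟩, ?_⟩
  · -- continuity
    have hu : TendstoUniformly (fun N x => base x + P c N 0 x) (fun x => base x + g x) atTop := by
      rw [Metric.tendstoUniformly_iff]
      intro ε hε
      filter_upwards [(hε0.eventually (gt_mem_nhds hε))] with N hN x
      rw [dist_eq_norm]
      exact (hfF N x).trans_lt hN
    exact hu.continuous (Eventually.of_forall fun N => (hFL N).continuous).frequently
  · intro x
    have h1 := base_bound x
    have h2 := hg1 0 x
    simp only [P, sub_zero, pow_zero, mul_one] at h2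
    refine (norm_add_le _ _).trans ?_
    linarith
  · intro x hx
    have := hg2 0 x hx
    simp only [P] at this
    simp only
    rw [this, add_zero]
  · intro N x hx
    filter_upwards [(isClosed_Rm N).isOpen_compl.mem_nhds hx] with z hz
    rw [hg2 N z hz]
  · filter_upwards [outer_ae, ae_leave, ae_cubi, ae_all_iff.2 fun k => good_ae hc hc' ha1 hca k 0]
      with x h1 h2 h3 h4
    by_cases hx : x ∈ cub
    · right
      classical
      have hfind := Nat.find_spec h2
      have hpos : Nat.find h2 ≠ 0 := fun h0 => by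
        rw [h0] at hfind
        exact hfind hx
      obtain ⟨k, hk⟩ := Nat.exists_eq_succ_of_ne_zero hpos
      have hk1 : x ∉ Rm (k + 1) := by rw [hk] at hfind; exact hfind
      have hk2 : x ∈ Rm k := by
        have := Nat.find_min h2 (m := k) (by omega)
        push Not at this
        exact this
      obtain ⟨M, C, hM, hdet, hC, hMC, e3, eC, e4⟩ := h4 k hk2 hk1
      rw [zero_add] at e3 e4
      have hn := opNorm_le_of_nt hC hMC
      have hck := hc k
      have a0 := ha1 0
      have ak := ha1 k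
      have akA := haA k
      have hA2 : a k ^ 2 ≤ A ^ 3 := by
        have q1 : a k ^ 2 ≤ A ^ 2 := pow_le_pow_left₀ (by linarith) akA 2
        have q2 : A ^ 2 ≤ A ^ 3 := pow_le_pow_right₀ hA1 (by norm_num)
        linarith
      have hA3' : a k ^ 3 ≤ A ^ 3 := pow_le_pow_left₀ (by linarith) akA 3
      refine ⟨k, hk2, M, ?_, hdet, ?_, ?_, ?_⟩
      · refine hM.congr_of_eventuallyEq ?_
        filter_upwards [(isClosed_Rm (k + 1)).isOpen_compl.mem_nhds hk1,
          isOpen_cubi.mem_nhds (h3 hx)] with z hz hz'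
        rw [hg2 (k + 1) z hz, base_of_mem (cubi_sub hz')]
        rfl
      · have q1 := pow_le_pow_left₀ (norm_nonneg _) hn 3
        have q2 : ‖M‖ ^ 3 * c k ≤ 64 * (C ^ 3 * c k) := by nlinarith
        have q3 : C ^ 3 * c k ≤ C ^ 3 * c k * a 0 ^ 2 := by
          apply le_mul_of_one_le_right (by positivity)
          exact one_le_pow₀ a0
        have q4 := mul_le_mul_of_nonneg_right hA2 hdet.le
        rw [hB]
        nlinarith
      · have q0 : (0:ℝ) < 3 ^ k := by positivity
        have q1 : (4000:ℝ) * 3 ^ k ≤ B * 3 ^ k := mul_le_mul_of_nonneg_right (by linarith) q0.le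
        linarith
      · have q1 : M.det ≤ M.det * a 0 ^ 3 := le_mul_of_one_le_right hdet.le (one_le_pow₀ a0)
        have q2 : 22 * 16 ^ k * c k * a k ^ 3 ≤ 22 * 16 ^ k * c k * A ^ 3 :=
          mul_le_mul_of_nonneg_left hA3' (by positivity)
        have q3 : 22 * 16 ^ k * c k * A ^ 3 ≤ B * 16 ^ k * c k := by
          rw [hB]
          have : 0 < 16 ^ k * c k * A ^ 3 := by positivity
          nlinarith
        linarith
    · left
      obtain ⟨M, hM, d1, d2, d3, d4⟩ := h1 hx
      refine ⟨M, ?_, d1, ?_, by linarith, by linarith⟩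
      · refine hM.congr_of_eventuallyEq ?_
        filter_upwards [isClosed_cub.isOpen_compl.mem_nhds hx] with z hz
        have := hg2 0 z hz
        simp only [P] at this
        rw [this, add_zero]
      · have : 1728 * M.det ≤ B * M.det := mul_le_mul_of_nonneg_right (by linarith) d1.le
        linarith

end

end Pool.Agent.H72.FD
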