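import Pool.Agent.H72.FD.Basic

/-! Weak derivative of a limit of Lipschitz maps, for MP_104731_an. -/

namespace Pool.Agent.H72.FD

open Set Filter Topology MeasureTheory
open scoped NNReal ENNReal ContDiff

noncomputable section

lemma weak_of_approx {f : V → V} {G : V → V →L[ℝ] V} {F : ℕ → V → V} {L : ℕ → ℝ≥0} {ε : ℕ → ℝ}
    {S : ℕ → Set V}
    (hf : Continuous f)
    (hG : LocallyIntegrable G volume)
    (hL : ∀ N, LipschitzWith (L N) (F N))
    (hε : ∀ N x, ‖f x - F N x‖ ≤ ε N) (hε0 : Tendsto ε atTop (𝓝 0))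
    (hS : ∀ N, MeasurableSet (S N))
    (hd : ∀ N, ∀ᵐ x : V, x ∉ S N → HasFDerivAt (F N) (G x) x)
    (h1 : Tendsto (fun N => (L N : ℝ≥0∞) * volume (S N)) atTop (𝓝 0))
    (h2 : Tendsto (fun N => ∫⁻ x in S N, ‖G x‖ₑ) atTop (𝓝 0))
    {φ : V → ℝ} (hφ : ContDiff ℝ ∞ φ) (hφc : HasCompactSupport φ) (v : V) (i : Fin 3) :
    ∫ x, f x i * fderiv ℝ φ x v = - ∫ x, G x v i * φ x := by
  obtain ⟨D, hD⟩ : ∃ D, LipschitzWith D φ :=
    ContDiff.lipschitzWith_of_hasCompactSupport hφc hφ (by simp)
  set ψ : V → ℝ := fun x => fderiv ℝ φ x v with hψ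
  have hψc : Continuous ψ := (hφ.continuous_fderiv (by simp)).clm_apply continuous_const
  have hψs : HasCompactSupport ψ := by
    have := hφc.fderiv (𝕜 := ℝ)
    exact this.comp_left (g := fun A : V →L[ℝ] ℝ => A v) (by simp)
  have hψi : Integrable ψ := hψc.integrable_of_hasCompactSupport hψs
  obtain ⟨Cφ, hCφ⟩ := hφc.exists_bound_of_continuous hφ.continuous
  have hCφ0 : 0 ≤ Cφ := (norm_nonneg _).trans (hCφ 0)
  have hgL : ∀ N, LipschitzWith (L N) (fun x => F N x i) := fun N => by
    refine LipschitzWith.of_dist_le_mul fun x y => ?_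
    have := (hL N).dist_le_mul x y
    refine le_trans ?_ this
    rw [Real.dist_eq, dist_eq_norm]
    exact abs_coord_le (F N x - F N y) i
  -- integration by parts for the approximations
  have ibp : ∀ N, ∫ x, lineDeriv ℝ (fun x => F N x i) x v * φ x = - ∫ x, F N x i * ψ x := fun N => by
    rw [(hgL N).integral_lineDeriv_mul_eq hD hφc v, ← integral_neg]
    congr 1
    ext x
    rw [(hφ.differentiable (by simp)).differentiableAt.lineDeriv_eq_fderiv, map_neg]
    simp only [hψ]
    ring
  -- the defect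
  set a : ℝ := (∫ x, f x i * ψ x) + ∫ x, G x v i * φ x with ha
  have hGv : LocallyIntegrable (fun x => G x v i) volume := by
    have : LocallyIntegrable (fun x => ((pr i).comp (ContinuousLinearMap.apply ℝ V v)) (G x)) volume :=
      fun x => by
        obtain ⟨U, hU, hU'⟩ := hG x
        exact ⟨U, hU, ContinuousLinearMap.integrable_comp _ hU'⟩
    exact this
  have hGφ : Integrable (fun x => G x v i * φ x) := by
    have := hGv.integrable_smul_left_of_hasCompactSupport hφ.continuous hφc
    refine this.congr (Eventually.of_forall fun x => ?_)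
    simp only [smul_eq_mul]
    ring
  have hfψ : Integrable (fun x => f x i * ψ x) :=
    (((continuous_coord i).comp hf).mul hψc).integrable_of_hasCompactSupport hψs.mul_left
  have hFψ : ∀ N, Integrable (fun x => F N x i * ψ x) := fun N =>
    ((hgL N).continuous.mul hψc).integrable_of_hasCompactSupport hψs.mul_left
  have hlφ : ∀ N, Integrable (fun x => lineDeriv ℝ (fun x => F N x i) x v * φ x) := fun N => by
    have := ((hgL N).locallyIntegrable_lineDeriv (μ := volume) v).integrable_smul_left_of_hasCompactSupport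
      hφ.continuous hφc
    refine this.congr (Eventually.of_forall fun x => ?_)
    simp only [smul_eq_mul]
    ring
  have key : ∀ N, ‖a‖ₑ ≤ ENNReal.ofReal (ε N) * (∫⁻ x, ‖ψ x‖ₑ) +
      ENNReal.ofReal Cφ * ‖v‖ₑ * ((∫⁻ x in S N, ‖G x‖ₑ) + (L N : ℝ≥0∞) * volume (S N)) := by
    intro N
    have e : a = (∫ x, (f x i - F N x i) * ψ x) +
        ∫ x, (G x v i - lineDeriv ℝ (fun x => F N x i) x v) * φ x := by
      have e1 : ∫ x, (f x i - F N x i) * ψ x = (∫ x, f x i * ψ x) - ∫ x, F N x i * ψ x := by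
        rw [← integral_sub hfψ (hFψ N)]
        congr 1
        ext x
        ring
      have e2 : ∫ x, (G x v i - lineDeriv ℝ (fun x => F N x i) x v) * φ x =
          (∫ x, G x v i * φ x) - ∫ x, lineDeriv ℝ (fun x => F N x i) x v * φ x := by
        rw [← integral_sub hGφ (hlφ N)]
        congr 1
        ext x
        ring
      rw [e1, e2, ibp N, ha]
      ring
    rw [e]
    refine (enorm_add_le _ _).trans (add_le_add ?_ ?_)
    · refine (enorm_integral_le_lintegral_enorm _).trans ?_
      rw [← lintegral_const_mul' _ _ ENNReal.ofReal_ne_top]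
      refine lintegral_mono fun x => ?_
      simp only
      rw [enorm_mul]
      refine mul_le_mul_left ?_ _
      rw [← ofReal_norm]
      apply ENNReal.ofReal_le_ofReal
      exact (abs_coord_le (f x - F N x) i).trans (hε N x)
    · refine (enorm_integral_le_lintegral_enorm _).trans ?_
      have hb : ∀ᵐ x : V, ‖(G x v i - lineDeriv ℝ (fun x => F N x i) x v) * φ x‖ₑ ≤
          (S N).indicator (fun x => ENNReal.ofReal Cφ * ‖v‖ₑ * (‖G x‖ₑ + (L N : ℝ≥0∞))) x := by
        filter_upwards [hd N] with x hx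
        by_cases hxS : x ∈ S N
        · rw [indicator_of_mem hxS, enorm_mul]
          have b1 : ‖G x v i‖ₑ ≤ ‖G x‖ₑ * ‖v‖ₑ := by
            rw [← ofReal_norm, ← ofReal_norm, ← ofReal_norm,
              ← ENNReal.ofReal_mul (norm_nonneg _)]
            apply ENNReal.ofReal_le_ofReal
            exact (abs_coord_le (G x v) i).trans ((G x).le_opNorm v)
          have b2 : ‖lineDeriv ℝ (fun x => F N x i) x v‖ₑ ≤ (L N : ℝ≥0∞) * ‖v‖ₑ := by
            rw [← ofReal_norm, ← ofReal_norm, ← ENNReal.ofReal_coe_nnreal,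
              ← ENNReal.ofReal_mul (by positivity)]
            apply ENNReal.ofReal_le_ofReal
            exact norm_lineDeriv_le_of_lipschitz ℝ (hgL N)
          have b3 : ‖φ x‖ₑ ≤ ENNReal.ofReal Cφ := by
            rw [← ofReal_norm]
            exact ENNReal.ofReal_le_ofReal (hCφ x)
          calc ‖G x v i - lineDeriv ℝ (fun x => F N x i) x v‖ₑ * ‖φ x‖ₑ
              ≤ (‖G x‖ₑ * ‖v‖ₑ + (L N : ℝ≥0∞) * ‖v‖ₑ) * ENNReal.ofReal Cφ :=
                mul_le_mul' ((enorm_sub_le).trans (add_le_add b1 b2)) b3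
            _ = _ := by ring
        · rw [indicator_of_notMem hxS]
          have hx' := hx hxS
          have hFi : HasFDerivAt (fun x => F N x i) ((pr i).comp (G x)) x :=
            (pr i).hasFDerivAt.comp x hx'
          have : lineDeriv ℝ (fun x => F N x i) x v = G x v i := by
            rw [(hFi.hasLineDerivAt v).lineDeriv]
            rfl
          rw [this, sub_self, zero_mul]
          simp
      refine (lintegral_mono_ae hb).trans ?_
      rw [lintegral_indicator (hS N), lintegral_const_mul' _ _ (by finiteness),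
        lintegral_add_right _ measurable_const, setLIntegral_const]
  have hlim : Tendsto (fun N => ENNReal.ofReal (ε N) * (∫⁻ x, ‖ψ x‖ₑ) +
      ENNReal.ofReal Cφ * ‖v‖ₑ * ((∫⁻ x in S N, ‖G x‖ₑ) + (L N : ℝ≥0∞) * volume (S N))) atTop (𝓝 0) := by
    have t1 : Tendsto (fun N => ENNReal.ofReal (ε N) * (∫⁻ x, ‖ψ x‖ₑ)) atTop (𝓝 0) := by
      have : Tendsto (fun N => ENNReal.ofReal (ε N)) atTop (𝓝 0) := by
        have := (ENNReal.continuous_ofReal.tendsto 0).comp hε0
        simpa [Function.comp_def] using this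
      have h3 := ENNReal.Tendsto.mul_const this (b := ∫⁻ x, ‖ψ x‖ₑ) (Or.inr hψi.hasFiniteIntegral.ne)
      simpa using h3
    have t2 : Tendsto (fun N => ENNReal.ofReal Cφ * ‖v‖ₑ *
        ((∫⁻ x in S N, ‖G x‖ₑ) + (L N : ℝ≥0∞) * volume (S N))) atTop (𝓝 0) := by
      have h3 := ENNReal.Tendsto.const_mul (h2.add h1) (a := ENNReal.ofReal Cφ * ‖v‖ₑ)
        (Or.inr (by finiteness))
      simpa using h3
    simpa using t1.add t2
  have ha0 : ‖a‖ₑ ≤ 0 := ge_of_tendsto' hlim key
  have ha1 : a = 0 := by simpa using ha0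
  rw [ha] at ha1
  linarith

end

end Pool.Agent.H72.FD
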