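import Pool.Agent.H72.FD.Limit
import Pool.Agent.H72.FD.Weak

/-! Main technical theorem for MP_104731_an. -/

namespace Pool.Agent.H72.FD

open Set Filter Topology MeasureTheory
open scoped NNReal ENNReal ContDiff

noncomputable section

lemma lint_bound {F : V → ℝ≥0∞} {b : ℝ≥0∞} {w : ℕ → ℝ≥0∞}
    (h : ∀ᵐ x : V, F x ≤ b ∨ ∃ k, x ∈ Rm k ∧ F x ≤ w k) (K : Set V) :
    ∫⁻ x in K, F x ≤ b * volume K + (∑' k, w k * ENNReal.ofReal ((1 / 16) ^ k)) * volume cub := by
  have hm : ∀ k, MeasurableSet (Rm k) := fun k => (isClosed_Rm k).measurableSet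
  have h1 : ∀ᵐ x : V, F x ≤ b + ∑' k, (Rm k).indicator (fun _ => w k) x := by
    filter_upwards [h] with x hx
    rcases hx with hx | ⟨k, hk, hx⟩
    · exact hx.trans le_self_add
    · refine hx.trans (le_add_left ?_)
      have := ENNReal.le_tsum (f := fun k => (Rm k).indicator (fun _ => w k) x) k
      rwa [indicator_of_mem hk] at this
  calc ∫⁻ x in K, F x ≤ ∫⁻ x in K, (b + ∑' k, (Rm k).indicator (fun _ => w k) x) :=
        lintegral_mono_ae (ae_restrict_of_ae h1)
    _ = b * volume K + ∫⁻ x in K, ∑' k, (Rm k).indicator (fun _ => w k) x := by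
        rw [lintegral_add_left measurable_const, setLIntegral_const]
    _ ≤ b * volume K + ∫⁻ x, ∑' k, (Rm k).indicator (fun _ => w k) x :=
        add_le_add le_rfl (setLIntegral_le_lintegral _ _)
    _ = b * volume K + ∑' k, w k * volume (Rm k) := by
        rw [lintegral_tsum (fun k => (measurable_const.indicator (hm k)).aemeasurable)]
        congr 2
        ext k
        rw [lintegral_indicator_const (hm k)]
    _ ≤ b * volume K + ∑' k, w k * ENNReal.ofReal ((1 / 16) ^ k) * volume cub := by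
        refine add_le_add le_rfl (ENNReal.tsum_le_tsum fun k => ?_)
        rw [mul_assoc]
        exact mul_le_mul_right (vol_Rm k) _
    _ = _ := by rw [ENNReal.tsum_mul_right]

lemma locInt_of_bound {X : Type*} [NormedAddCommGroup X] {H : V → X}
    (hH : AEStronglyMeasurable H volume) {b : ℝ≥0∞} {w : ℕ → ℝ≥0∞} (hb : b ≠ ⊤)
    (hw : ∑' k, w k * ENNReal.ofReal ((1 / 16) ^ k) ≠ ⊤)
    (h : ∀ᵐ x : V, ‖H x‖ₑ ≤ b ∨ ∃ k, x ∈ Rm k ∧ ‖H x‖ₑ ≤ w k) : LocallyIntegrable H volume := by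
  rw [locallyIntegrable_iff]
  intro K hK
  refine ⟨hH.restrict, ?_⟩
  refine (lint_bound h K).trans_lt ?_
  have := hK.measure_lt_top (μ := (volume : Measure V))
  have := vol_cub
  finiteness

lemma growth {F : V → ℝ≥0∞} {b : ℝ≥0∞} {w : ℕ → ℝ≥0∞} (hb : b ≠ ⊤)
    (hw : ∑' k, w k * ENNReal.ofReal ((1 / 16) ^ k) ≠ ⊤)
    (h : ∀ᵐ x : V, F x ≤ b ∨ ∃ k, x ∈ Rm k ∧ F x ≤ w k) :
    limsup (fun R : ℝ => (∫⁻ x in Metric.ball 0 R, F x) / ENNReal.ofReal (R ^ 3)) atTop < ⊤ := by
  set D : ℝ≥0∞ := (∑' k, w k * ENNReal.ofReal ((1 / 16) ^ k)) * volume cub with hD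
  have hDt : D ≠ ⊤ := ENNReal.mul_ne_top hw vol_cub.ne
  have hv : volume (Metric.ball (0 : V) 1) ≠ ⊤ := measure_ball_lt_top.ne
  refine lt_of_le_of_lt (b := b * volume (Metric.ball (0 : V) 1) + D) ?_ (by finiteness)
  refine limsup_le_of_le (by isBoundedDefault) ?_
  filter_upwards [eventually_ge_atTop (1:ℝ)] with R hR
  apply ENNReal.div_le_of_le_mul
  have hvol : volume (Metric.ball (0 : V) R) = ENNReal.ofReal (R ^ 3) * volume (Metric.ball (0 : V) 1) := by
    rw [Measure.addHaar_ball_of_pos _ _ (by linarith : 0 < R)]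
    simp
  refine (lint_bound h _).trans ?_
  rw [hvol, add_mul]
  have h1 : 1 ≤ ENNReal.ofReal (R ^ 3) := by
    rw [ENNReal.one_le_ofReal]
    exact one_le_pow₀ hR
  refine add_le_add (le_of_eq (by ring)) ?_
  exact le_mul_of_one_le_right' h1

/-- The ratio bound at almost every point. -/
theorem main_raw {c : ℕ → ℝ} (hc : ∀ m, 0 < c m) (hc' : ∀ m, c m ≤ 1 / 16) (hs : Summable c) :
    ∃ (f : V → V) (G : V → V →L[ℝ] V) (B : ℝ), 1 ≤ B ∧ Continuous f ∧ (∀ x, ‖f x‖ ≤ B) ∧
      (∀ x, x ∉ cub → f x = base x) ∧ LocallyIntegrable G volume ∧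
      LocallyIntegrable (fun x => (G x).det) volume ∧
      (∀ φ : V → ℝ, ContDiff ℝ ∞ φ → HasCompactSupport φ → ∀ (v : V) (i : Fin 3),
        ∫ x, f x i * fderiv ℝ φ x v = - ∫ x, G x v i * φ x) ∧
      (∀ᵐ x : V, 0 < (G x).det) ∧
      (∀ᵐ x : V, ‖G x‖ ^ 3 ≤ B ^ 2 ∨ ∃ k, x ∈ Rm k ∧ ‖G x‖ ^ 3 ≤ B ^ 2 * 16 ^ k) ∧
      (∀ᵐ x : V, ‖G x‖ ^ 3 / (G x).det ≤ B ∨ ∃ k, x ∈ Rm k ∧ ‖G x‖ ^ 3 / (G x).det ≤ B / c k) := by
  obtain ⟨f, B, hB, hf, hfB, hout, ⟨F, hFL, hFf, hFe⟩, hst⟩ := construct hc hc' hs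
  set G : V → V →L[ℝ] V := fderiv ℝ f with hG
  have hdiff : ∀ᵐ x : V, DifferentiableAt ℝ f x := by
    filter_upwards [hst] with x hx
    rcases hx with ⟨M, hM, -⟩ | ⟨k, -, M, hM, -⟩
    · exact hM.differentiableAt
    · exact hM.differentiableAt
  have hst' : ∀ᵐ x : V, (0 < (G x).det ∧ ‖G x‖ ^ 3 ≤ B * (G x).det ∧ ‖G x‖ ≤ B ∧ (G x).det ≤ B) ∨
      ∃ k, x ∈ Rm k ∧ 0 < (G x).det ∧ ‖G x‖ ^ 3 * c k ≤ B * (G x).det ∧
        ‖G x‖ ≤ B * 3 ^ k ∧ (G x).det ≤ B * 16 ^ k * c k := by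
    filter_upwards [hst] with x hx
    rcases hx with ⟨M, hM, h⟩ | ⟨k, hk, M, hM, h⟩
    · left; rw [hG, hM.fderiv]; exact h
    · right; rw [hG, hM.fderiv]; exact ⟨k, hk, h⟩
  have hGm : Measurable G := measurable_fderiv ℝ f
  have hdet : ∀ᵐ x : V, 0 < (G x).det := by
    filter_upwards [hst'] with x hx
    rcases hx with h | ⟨k, -, h⟩
    · exact h.1
    · exact h.1
  have hGb : ∀ᵐ x : V, ‖G x‖ₑ ≤ ENNReal.ofReal B ∨ ∃ k, x ∈ Rm k ∧ ‖G x‖ₑ ≤ ENNReal.ofReal (B * 3 ^ k) := by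
    filter_upwards [hst'] with x hx
    rw [← ofReal_norm]
    rcases hx with h | ⟨k, hk, h⟩
    · left; exact ENNReal.ofReal_le_ofReal h.2.2.1
    · right; exact ⟨k, hk, ENNReal.ofReal_le_ofReal h.2.2.1⟩
  have hGw : ∑' k : ℕ, ENNReal.ofReal (B * 3 ^ k) * ENNReal.ofReal ((1 / 16) ^ k) ≠ ⊤ := by
    have : ∀ k : ℕ, ENNReal.ofReal (B * 3 ^ k) * ENNReal.ofReal ((1 / 16) ^ k) =
        ENNReal.ofReal (B * (3 / 16) ^ k) := fun k => by
      rw [← ENNReal.ofReal_mul (by positivity)]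
      congr 1
      rw [mul_assoc, ← mul_pow]
      norm_num
    simp_rw [this]
    exact ((summable_geometric_of_lt_one (by norm_num) (by norm_num)).mul_left B).tsum_ofReal_ne_top
  have hGL : LocallyIntegrable G volume :=
    locInt_of_bound hGm.aestronglyMeasurable ENNReal.ofReal_ne_top hGw hGb
  refine ⟨f, G, B, hB, hf, hfB, hout, hGL, ?_, ?_, hdet, ?_, ?_⟩
  · have hdm : Measurable (fun x => (G x).det) := ContinuousLinearMap.continuous_det.measurable.comp hGm
    refine locInt_of_bound hdm.aestronglyMeasurable (b := ENNReal.ofReal B)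
      (w := fun k => ENNReal.ofReal (B * 16 ^ k * c k)) ENNReal.ofReal_ne_top ?_ ?_
    · have : ∀ k : ℕ, ENNReal.ofReal (B * 16 ^ k * c k) * ENNReal.ofReal ((1 / 16) ^ k) =
          ENNReal.ofReal (B * c k) := fun k => by
        have := hc k
        rw [← ENNReal.ofReal_mul (by positivity)]
        congr 1
        rw [one_div_pow]
        field_simp
      simp_rw [this]
      exact (hs.mul_left B).tsum_ofReal_ne_top
    · filter_upwards [hst'] with x hx
      rw [← ofReal_norm]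
      rcases hx with h | ⟨k, hk, h⟩
      · left
        rw [Real.norm_eq_abs, abs_of_pos h.1]
        exact ENNReal.ofReal_le_ofReal h.2.2.2
      · right
        rw [Real.norm_eq_abs, abs_of_pos h.1]
        exact ⟨k, hk, ENNReal.ofReal_le_ofReal h.2.2.2⟩
  · intro φ hφ hφc v i
    have hε0 : Tendsto (fun N : ℕ => (16000:ℝ) * (9 / 10) ^ N) atTop (𝓝 0) := by
      have := (tendsto_pow_atTop_nhds_zero_of_lt_one (r := (9:ℝ) / 10) (by norm_num) (by norm_num)).const_mul 16000
      simpa using this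
    have hvol0 : Tendsto (fun N : ℕ => ENNReal.ofReal ((7 / 16) ^ N)) atTop (𝓝 0) := by
      have h1 : Tendsto (fun k : ℕ => ((7:ℝ) / 16) ^ k) atTop (𝓝 0) :=
        tendsto_pow_atTop_nhds_zero_of_lt_one (by norm_num) (by norm_num)
      have := (ENNReal.continuous_ofReal.tendsto 0).comp h1
      simpa [Function.comp_def] using this
    have hvR : Tendsto (fun N => volume (Rm N)) atTop (𝓝 0) := by
      have h2 : Tendsto (fun k : ℕ => ENNReal.ofReal (((1:ℝ) / 16) ^ k) * volume cub) atTop (𝓝 0) := by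
        have h1 : Tendsto (fun k : ℕ => ((1:ℝ) / 16) ^ k) atTop (𝓝 0) :=
          tendsto_pow_atTop_nhds_zero_of_lt_one (by norm_num) (by norm_num)
        have h3 : Tendsto (fun k : ℕ => ENNReal.ofReal (((1:ℝ) / 16) ^ k)) atTop (𝓝 0) := by
          have := (ENNReal.continuous_ofReal.tendsto 0).comp h1
          simpa [Function.comp_def] using this
        have h4 := ENNReal.Tendsto.mul_const h3 (b := volume cub) (Or.inr vol_cub.ne)
        simpa using h4
      exact tendsto_of_tendsto_of_tendsto_of_le_of_le tendsto_const_nhds h2 (fun _ => zero_le) vol_Rm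
    refine weak_of_approx (S := Rm) hf hGL hFL hFf hε0 (fun N => (isClosed_Rm N).measurableSet) ?_ ?_ ?_
      hφ hφc v i
    · intro N
      filter_upwards [hdiff] with x hx hxN
      refine hx.hasFDerivAt.congr_of_eventuallyEq ?_
      filter_upwards [hFe N x hxN] with z hz
      exact hz.symm
    · have hle : ∀ N : ℕ, ((4000 * 7 ^ N : ℝ≥0) : ℝ≥0∞) * volume (Rm N) ≤
          ENNReal.ofReal ((7 / 16) ^ N) * (4000 * volume cub) := fun N => by
        refine (mul_le_mul_right (vol_Rm N) _).trans (le_of_eq ?_)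
        have e1 : ((4000 * 7 ^ N : ℝ≥0) : ℝ≥0∞) = 4000 * ENNReal.ofReal (7 ^ N) := by
          rw [ENNReal.ofReal_pow (by norm_num)]
          push_cast
          norm_num
        have e2 : ENNReal.ofReal ((7 / 16) ^ N) = ENNReal.ofReal (7 ^ N) * ENNReal.ofReal ((1 / 16) ^ N) := by
          rw [← ENNReal.ofReal_mul (by positivity), ← mul_pow]
          norm_num
        rw [e1, e2]
        ring
      refine tendsto_of_tendsto_of_tendsto_of_le_of_le tendsto_const_nhds ?_ (fun _ => zero_le) hle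
      have h4 := ENNReal.Tendsto.mul_const hvol0 (b := 4000 * volume cub)
        (Or.inr (ENNReal.mul_ne_top (by finiteness) vol_cub.ne))
      simpa using h4
    · have hsub : ∀ N, Rm N ⊆ cub := fun N => Rm_anti (Nat.zero_le N)
      have hfin : ∫⁻ x in cub, ‖G x‖ₑ ≠ ⊤ := by
        refine ((lint_bound hGb cub).trans_lt ?_).ne
        have := vol_cub
        finiteness
      have h5 := tendsto_setLIntegral_zero (μ := volume.restrict cub) (f := fun x : V => ‖G x‖ₑ) hfin
        (s := Rm) (l := atTop) (by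
          refine tendsto_of_tendsto_of_tendsto_of_le_of_le tendsto_const_nhds hvR (fun _ => zero_le)
            (fun N => ?_)
          exact Measure.restrict_apply_le _ _)
      refine h5.congr fun N => ?_
      rw [Measure.restrict_restrict (isClosed_Rm N).measurableSet, inter_eq_left.2 (hsub N)]
  · filter_upwards [hst'] with x hx
    have hB0 : 0 < B := by linarith
    rcases hx with h | ⟨k, hk, h⟩
    · left
      have := mul_le_mul_of_nonneg_left h.2.2.2 hB0.le
      rw [pow_two]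
      linarith [h.2.1]
    · right
      refine ⟨k, hk, ?_⟩
      have h1 := mul_le_mul_of_nonneg_left h.2.2.2 hB0.le
      have h2 : ‖G x‖ ^ 3 * c k ≤ B ^ 2 * 16 ^ k * c k := by
        have e : B ^ 2 * 16 ^ k * c k = B * (B * 16 ^ k * c k) := by ring
        rw [e]
        exact h.2.1.trans h1
      exact le_of_mul_le_mul_right h2 (hc k)
  · filter_upwards [hst'] with x hx
    rcases hx with h | ⟨k, hk, h⟩
    · left
      rw [div_le_iff₀ h.1]
      exact h.2.1
    · right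
      refine ⟨k, hk, ?_⟩
      rw [div_le_div_iff₀ h.1 (hc k)]
      exact h.2.1

end

end Pool.Agent.H72.FD
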