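import Pool.Agent.H72.FD.Good

/-! The outer map for MP_104731_an. -/

namespace Pool.Agent.H72.FD

open Set Filter Topology MeasureTheory

noncomputable section

/-- Gauge of the cube. -/
def qg (y : V) : ℝ := max |y 0| (rad y)

lemma qg_lip (x y : V) : |qg x - qg y| ≤ ‖x - y‖ :=
  max_lip ((abs_abs_sub _ _).trans (abs_coord_le (x - y) 0)) (rad_lip x y)

lemma norm_le_qg (y : V) : ‖y‖ ≤ 2 * qg y := by
  apply norm_le_of_coord
  intro i
  fin_cases i
  · exact le_max_left _ _
  · exact (le_max_left _ _).trans (le_max_right _ _)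
  · exact (le_max_right _ _).trans (le_max_right _ _)

/-- The base map. -/
def base (y : V) : V := ((max 1 (qg y)) ^ 2)⁻¹ • rho y

lemma base_of_mem {y : V} (h : y ∈ cub) : base y = rho y := by
  unfold base
  have : qg y ≤ 1 := max_le h.1 (max_le h.2.1 h.2.2)
  rw [max_eq_left this]
  simp

lemma base_lip (x y : V) : ‖base x - base y‖ ≤ 30 * ‖x - y‖ := by
  unfold base
  set u := max 1 (qg x) with hu
  set w := max 1 (qg y) with hw
  have hu1 : 1 ≤ u := le_max_left _ _
  have hw1 : 1 ≤ w := le_max_left _ _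
  have huw : |u - w| ≤ ‖x - y‖ := max_lip (by simp) (qg_lip x y)
  have n := norm_nonneg (x - y)
  have e : (u ^ 2)⁻¹ • rho x - (w ^ 2)⁻¹ • rho y =
      (u ^ 2)⁻¹ • rho (x - y) + ((u ^ 2)⁻¹ - (w ^ 2)⁻¹) • rho y := by
    rw [map_sub, smul_sub, sub_smul]; abel
  rw [e]
  refine (norm_add_le _ _).trans ?_
  rw [norm_smul, norm_smul, Real.norm_eq_abs, Real.norm_eq_abs]
  have h1 : |(u ^ 2)⁻¹| ≤ 1 := by
    rw [abs_of_pos (by positivity)]
    exact inv_le_one_of_one_le₀ (one_le_pow₀ hu1)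
  have h2 := mul_le_mul h1 (rho_le (x - y)) (norm_nonneg _) (by norm_num)
  have h3 : |(u ^ 2)⁻¹ - (w ^ 2)⁻¹| * ‖rho y‖ ≤ 24 * ‖x - y‖ := by
    have h4 : ‖rho y‖ ≤ 12 * w := by
      have := rho_le y
      have := norm_le_qg y
      have : qg y ≤ w := le_max_right _ _
      linarith
    have h5 : |(u ^ 2)⁻¹ - (w ^ 2)⁻¹| = |u - w| * ((u + w) / (u ^ 2 * w ^ 2)) := by
      have h6 : (u ^ 2)⁻¹ - (w ^ 2)⁻¹ = - (u - w) * ((u + w) / (u ^ 2 * w ^ 2)) := by
        have hu0 : u ≠ 0 := by linarith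
        have hw0 : w ≠ 0 := by linarith
        field_simp
        ring
      rw [h6, abs_mul, abs_neg, abs_of_nonneg (by positivity : 0 ≤ (u + w) / (u ^ 2 * w ^ 2))]
    have h7 : (u + w) / (u ^ 2 * w ^ 2) * (12 * w) ≤ 24 := by
      rw [div_mul_eq_mul_div, div_le_iff₀ (by positivity)]
      have a1 : 0 ≤ (u - 1) * w := mul_nonneg (by linarith) (by linarith)
      have a2 : 0 ≤ (w - 1) * u := mul_nonneg (by linarith) (by linarith)
      have a3 : u + w ≤ 2 * (u * w) := by nlinarith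
      have a4 : u * w ≤ u ^ 2 * w := by nlinarith [mul_nonneg (by linarith : 0 ≤ u - 1) (by positivity : 0 ≤ u * w)]
      have a5 := mul_le_mul_of_nonneg_right (a3.trans (by linarith : 2 * (u * w) ≤ 2 * (u ^ 2 * w)))
        (by positivity : 0 ≤ 12 * w)
      nlinarith
    rw [h5]
    calc |u - w| * ((u + w) / (u ^ 2 * w ^ 2)) * ‖rho y‖
        ≤ |u - w| * ((u + w) / (u ^ 2 * w ^ 2)) * (12 * w) :=
          mul_le_mul_of_nonneg_left h4 (by positivity)
      _ = |u - w| * ((u + w) / (u ^ 2 * w ^ 2) * (12 * w)) := by ring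
      _ ≤ ‖x - y‖ * 24 := mul_le_mul huw h7 (by positivity) n
      _ = _ := by ring
  linarith

lemma base_bound (y : V) : ‖base y‖ ≤ 12 := by
  unfold base
  set w := max 1 (qg y) with hw
  have hw1 : 1 ≤ w := le_max_left _ _
  rw [norm_smul, Real.norm_eq_abs, abs_of_pos (by positivity)]
  have h4 : ‖rho y‖ ≤ 12 * w := by
    have := rho_le y
    have := norm_le_qg y
    have : qg y ≤ w := le_max_right _ _
    linarith
  rw [inv_mul_le_iff₀ (by positivity)]
  nlinarith

/-- Derivative of one component of the outer map. -/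
lemma outer_comp_deriv (r : ℝ) (i j : Fin 3) {y : V} (hj : y j ≠ 0) :
    HasFDerivAt (fun z : V => r / (z j) ^ 2 * z i)
      ((r / (y j) ^ 2) • pr i - (2 * r * y i / (y j) ^ 3) • pr j) y := by
  have hD : HasFDerivAt (fun z : V => (z j) ^ 2) ((2 * y j) • pr j) y := by
    have := (hasFDerivAt_pr j y).pow 2
    convert! this using 1
    ext z
    simp
  have hN : HasFDerivAt (fun _ : V => r) (0 : V →L[ℝ] ℝ) y := hasFDerivAt_const r y
  convert! quot_deriv hN hD (pow_ne_zero 2 hj) i using 1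
  ext z
  simp
  field_simp
  ring

/-- Conclusion for the outer region. -/
def OutC (M : V →L[ℝ] V) : Prop := 0 < M.det ∧ ‖M‖ ^ 3 ≤ 1728 * M.det ∧ ‖M‖ ≤ 12 ∧ M.det ≤ 1

lemma outC_of {M : Matrix (Fin 3) (Fin 3) ℝ} {t : ℝ} (ht : 0 < t) (ht1 : t ≤ 1)
    (hM : ∀ i j, |M i j| ≤ 2 * t) (hdet : M.det = t ^ 3) : OutC (lin M) := by
  have h1 := lin_norm hM
  have h2 := pow_le_pow_left₀ (norm_nonneg _) h1 3
  have h3 : t ^ 3 ≤ 1 := pow_le_one₀ ht.le ht1
  refine ⟨?_, ?_, ?_, ?_⟩
  · rw [lin_det, hdet]; positivity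
  · rw [lin_det, hdet]; nlinarith
  · linarith
  · rw [lin_det, hdet]; exact h3

lemma outer_aux {y : V} {j : Fin 3} (h1 : 1 < |y j|) (hi : ∀ i, |y i| ≤ |y j|) :
    0 < 1 / (y j) ^ 2 ∧ 1 / (y j) ^ 2 ≤ 1 ∧ (∀ i, |2 * y i / (y j) ^ 3| ≤ 2 * (1 / (y j) ^ 2)) ∧
      y j ≠ 0 := by
  have hj : y j ≠ 0 := by
    intro h; rw [h, abs_zero] at h1; linarith
  have hsq : 1 < (y j) ^ 2 := by rw [← sq_abs]; nlinarith
  refine ⟨by positivity, by rw [div_le_one (by positivity)]; exact hsq.le, fun i => ?_, hj⟩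
  have hjp : 0 < |y j| := abs_pos.2 hj
  rw [abs_div, abs_mul, abs_two, abs_pow, mul_one_div, ← sq_abs (y j),
    div_le_div_iff₀ (by positivity) (by positivity)]
  have := mul_le_mul_of_nonneg_right (hi i) (by positivity : 0 ≤ 2 * |y j| ^ 2)
  nlinarith

lemma outer_deriv {y : V} (hy : y ∉ cub) (h01 : |y 0| ≠ |y 1|) (h02 : |y 0| ≠ |y 2|)
    (h12 : |y 1| ≠ |y 2|) : ∃ M : V →L[ℝ] V, HasFDerivAt base M y ∧ OutC M := by
  have ev : ∀ f g : V → ℝ, Continuous f → Continuous g → f y < g y →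
      ∀ᶠ p : V in 𝓝 y, f p < g p := fun f g hf hg h =>
    (isOpen_lt hf hg).mem_nhds h
  have c0 := (continuous_coord 0).abs
  have c1 := (continuous_coord 1).abs
  have c2 := (continuous_coord 2).abs
  have hq1 : 1 < qg y := by
    by_contra h
    push Not at h
    exact hy ⟨(le_max_left _ _).trans h, ((le_max_left _ _).trans (le_max_right _ _)).trans h,
      ((le_max_right _ _).trans (le_max_right _ _)).trans h⟩
  have key0 : |y 1| < |y 0| → |y 2| < |y 0| → ∃ M : V →L[ℝ] V, HasFDerivAt base M y ∧ OutC M := by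
    intro k1 k2
    have hqy : qg y = |y 0| := max_eq_left (max_le k1.le k2.le)
    rw [hqy] at hq1
    obtain ⟨t0, t1, t2, t3⟩ := outer_aux (y := y) (j := 0) hq1 (by
      intro i; fin_cases i
      · exact le_rfl
      · exact k1.le
      · exact k2.le)
    refine ⟨lin !![1 / (y 0) ^ 2, 0, 0; - (2 * y 1 / (y 0) ^ 3), 1 / (y 0) ^ 2, 0;
      - (2 * y 2 / (y 0) ^ 3), 0, 1 / (y 0) ^ 2], ?_, ?_⟩
    · have hev : base =ᶠ[𝓝 y] fun z => pt (-1 / (z 0) ^ 2 * z 0) (1 / (z 0) ^ 2 * z 1)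
          (1 / (z 0) ^ 2 * z 2) := by
        filter_upwards [ev _ _ c1 c0 k1, ev _ _ c2 c0 k2, ev _ _ continuous_const c0 hq1]
          with z z1 z2 z3
        have hqz : qg z = |z 0| := max_eq_left (max_le z1.le z2.le)
        unfold base
        rw [hqz, max_eq_right z3.le, sq_abs]
        apply ext3
        · simp; ring
        · simp
        · simp
      refine HasFDerivAt.congr_of_eventuallyEq ?_ hev
      apply hasFDerivAt_lin
      intro i
      fin_cases i
      · convert! outer_comp_deriv (-1) 0 0 t3 using 1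
        ext z; simp; field_simp; ring
      · convert! outer_comp_deriv 1 1 0 t3 using 1
        ext z; simp; ring
      · convert! outer_comp_deriv 1 2 0 t3 using 1
        ext z; simp; ring
    · refine outC_of t0 t1 ?_ ?_
      · have e1 := t2 1
        have e2 := t2 2
        have e3 : |1 / (y 0) ^ 2| ≤ 2 * (1 / (y 0) ^ 2) := by rw [abs_of_pos t0]; linarith
        have e4 : |(0:ℝ)| ≤ 2 * (1 / (y 0) ^ 2) := by rw [abs_zero]; positivity
        have e5 : |-(2 * y 1 / (y 0) ^ 3)| ≤ 2 * (1 / (y 0) ^ 2) := by rw [abs_neg]; exact e1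
        have e6 : |-(2 * y 2 / (y 0) ^ 3)| ≤ 2 * (1 / (y 0) ^ 2) := by rw [abs_neg]; exact e2
        intro i j
        fin_cases i <;> fin_cases j <;> assumption
      · rw [Matrix.det_fin_three]; simp; ring
  have key1 : |y 0| < |y 1| → |y 2| < |y 1| → ∃ M : V →L[ℝ] V, HasFDerivAt base M y ∧ OutC M := by
    intro k1 k2
    have hqg : ∀ z : V, |z 0| < |z 1| → |z 2| < |z 1| → qg z = |z 1| := fun z z1 z2 => by
      have hr : rad z = |z 1| := max_eq_left z2.le
      unfold qg
      rw [hr]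
      exact max_eq_right z1.le
    rw [hqg y k1 k2] at hq1
    obtain ⟨t0, t1, t2, t3⟩ := outer_aux (y := y) (j := 1) hq1 (by
      intro i; fin_cases i
      · exact k1.le
      · exact le_rfl
      · exact k2.le)
    refine ⟨lin !![-(1 / (y 1) ^ 2), 2 * y 0 / (y 1) ^ 3, 0; 0, -(1 / (y 1) ^ 2), 0;
      0, - (2 * y 2 / (y 1) ^ 3), 1 / (y 1) ^ 2], ?_, ?_⟩
    · have hev : base =ᶠ[𝓝 y] fun z => pt (-1 / (z 1) ^ 2 * z 0) (1 / (z 1) ^ 2 * z 1)
          (1 / (z 1) ^ 2 * z 2) := by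
        filter_upwards [ev _ _ c0 c1 k1, ev _ _ c2 c1 k2, ev _ _ continuous_const c1 hq1]
          with z z1 z2 z3
        unfold base
        rw [hqg z z1 z2, max_eq_right z3.le, sq_abs]
        apply ext3
        · simp; ring
        · simp
        · simp
      refine HasFDerivAt.congr_of_eventuallyEq ?_ hev
      apply hasFDerivAt_lin
      intro i
      fin_cases i
      · convert! outer_comp_deriv (-1) 0 1 t3 using 1
        ext z; simp; ring
      · convert! outer_comp_deriv 1 1 1 t3 using 1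
        ext z; simp; field_simp; ring
      · convert! outer_comp_deriv 1 2 1 t3 using 1
        ext z; simp; ring
    · refine outC_of t0 t1 ?_ ?_
      · have e1 := t2 0
        have e2 := t2 2
        have e3 : |1 / (y 1) ^ 2| ≤ 2 * (1 / (y 1) ^ 2) := by rw [abs_of_pos t0]; linarith
        have e4 : |(0:ℝ)| ≤ 2 * (1 / (y 1) ^ 2) := by rw [abs_zero]; positivity
        have e5 : |-(1 / (y 1) ^ 2)| ≤ 2 * (1 / (y 1) ^ 2) := by rw [abs_neg]; exact e3
        have e6 : |-(2 * y 2 / (y 1) ^ 3)| ≤ 2 * (1 / (y 1) ^ 2) := by rw [abs_neg]; exact e2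
        intro i j
        fin_cases i <;> fin_cases j <;> assumption
      · rw [Matrix.det_fin_three]; simp; ring
  have key2 : |y 0| < |y 2| → |y 1| < |y 2| → ∃ M : V →L[ℝ] V, HasFDerivAt base M y ∧ OutC M := by
    intro k1 k2
    have hqg : ∀ z : V, |z 0| < |z 2| → |z 1| < |z 2| → qg z = |z 2| := fun z z1 z2 => by
      have hr : rad z = |z 2| := max_eq_right z2.le
      unfold qg
      rw [hr]
      exact max_eq_right z1.le
    rw [hqg y k1 k2] at hq1
    obtain ⟨t0, t1, t2, t3⟩ := outer_aux (y := y) (j := 2) hq1 (by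
      intro i; fin_cases i
      · exact k1.le
      · exact k2.le
      · exact le_rfl)
    refine ⟨lin !![-(1 / (y 2) ^ 2), 0, 2 * y 0 / (y 2) ^ 3; 0, 1 / (y 2) ^ 2,
      - (2 * y 1 / (y 2) ^ 3); 0, 0, -(1 / (y 2) ^ 2)], ?_, ?_⟩
    · have hev : base =ᶠ[𝓝 y] fun z => pt (-1 / (z 2) ^ 2 * z 0) (1 / (z 2) ^ 2 * z 1)
          (1 / (z 2) ^ 2 * z 2) := by
        filter_upwards [ev _ _ c0 c2 k1, ev _ _ c1 c2 k2, ev _ _ continuous_const c2 hq1]
          with z z1 z2 z3
        unfold base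
        rw [hqg z z1 z2, max_eq_right z3.le, sq_abs]
        apply ext3
        · simp; ring
        · simp
        · simp
      refine HasFDerivAt.congr_of_eventuallyEq ?_ hev
      apply hasFDerivAt_lin
      intro i
      fin_cases i
      · convert! outer_comp_deriv (-1) 0 2 t3 using 1
        ext z; simp; ring
      · convert! outer_comp_deriv 1 1 2 t3 using 1
        ext z; simp; ring
      · convert! outer_comp_deriv 1 2 2 t3 using 1
        ext z; simp; field_simp; ring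
    · refine outC_of t0 t1 ?_ ?_
      · have e1 := t2 0
        have e2 := t2 1
        have e3 : |1 / (y 2) ^ 2| ≤ 2 * (1 / (y 2) ^ 2) := by rw [abs_of_pos t0]; linarith
        have e4 : |(0:ℝ)| ≤ 2 * (1 / (y 2) ^ 2) := by rw [abs_zero]; positivity
        have e5 : |-(1 / (y 2) ^ 2)| ≤ 2 * (1 / (y 2) ^ 2) := by rw [abs_neg]; exact e3
        have e6 : |-(2 * y 1 / (y 2) ^ 3)| ≤ 2 * (1 / (y 2) ^ 2) := by rw [abs_neg]; exact e2
        intro i j
        fin_cases i <;> fin_cases j <;> assumption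
      · rw [Matrix.det_fin_three]; simp; ring
  rcases lt_or_gt_of_ne h01 with h | h
  · rcases lt_or_gt_of_ne h12 with h' | h'
    · exact key2 (h.trans h') h'
    · exact key1 h h'
  · rcases lt_or_gt_of_ne h02 with h' | h'
    · exact key2 h' (h.trans h')
    · exact key0 h h'

lemma outer_ae : ∀ᵐ y : V, y ∉ cub → ∃ M : V →L[ℝ] V, HasFDerivAt base M y ∧ OutC M := by
  filter_upwards [ae_abs_lin2_ne 0 1 (by decide) 1 0, ae_abs_lin2_ne 0 2 (by decide) 1 0,
    ae_abs_lin2_ne 1 2 (by decide) 1 0] with y h1 h2 h3 hy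
  exact outer_deriv hy (fun h => h1 (by rw [h]; ring)) (fun h => h2 (by rw [h]; ring))
    (fun h => h3 (by rw [h]; ring))

end

end Pool.Agent.H72.FD
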