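import Mathlib

/-! Planar piecewise linear profile used in the construction for MP_104731_an. -/

namespace Pool.Agent.H72.FD

open Set Filter Topology

noncomputable section

/-- First coordinate of the planar profile, for `x ≥ 0`. -/
def X0 (c x r : ℝ) : ℝ :=
  max (max (max (min (4 * c * x) ((1 + 3 * c) * (1 - 4 * max (r - 1 / 2) 0) - 4 * (1 + 2 * c) * x))
    (-2 * (1 + c) * x)) (-x - (1 + 2 * c) * (1 - r))) (-1 - 2 * c + 2 * c * x)

/-- Second coordinate of the planar profile, for `x ≥ 0`. -/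
def Rf (c x r : ℝ) : ℝ :=
  min (min (1 + 2 * c * (1 - r)) ((4 / 3 + 8 / 3 * c) * x + (4 / 3 + 2 / 3 * c) * r))
    (max r (2 * (1 + c) * r - 2 * (1 + 2 * c) * max (x - 1 / 2) 0))

lemma mx_m {m a b d : ℝ} (h1 : a ≤ m) (h2 : b ≤ m) (h3 : d ≤ m) :
    max (max (max m a) b) d = m := by
  rw [max_eq_left h1, max_eq_left h2, max_eq_left h3]

lemma mx_a {m a b d : ℝ} (h1 : m ≤ a) (h2 : b ≤ a) (h3 : d ≤ a) :
    max (max (max m a) b) d = a := by
  rw [max_eq_right h1, max_eq_left h2, max_eq_left h3]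

lemma mx_b {m a b d : ℝ} (h1 : m ≤ b) (h2 : a ≤ b) (h3 : d ≤ b) :
    max (max (max m a) b) d = b := by
  rw [max_eq_right (max_le h1 h2), max_eq_left h3]

section vals
variable {c x r : ℝ}

lemma reg1 (hc : 0 < c) (hc' : c ≤ 1 / 16) (h1 : x < 1 / 4) (h2 : r < 2 * x) (h3 : 0 < r) :
    X0 c x r = 4 * c * x + 0 * r + 0 ∧ Rf c x r = 0 * x + 2 * (1 + c) * r + 0 := by
  have hr : r - 1 / 2 < 0 := by linarith
  have hx : 0 < x := by linarith
  have hcx : 0 < c * x := mul_pos hc hx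
  have hcr : 0 < c * r := mul_pos hc h3
  have hc14 : 0 < c * (1 / 4 - x) := mul_pos hc (by linarith)
  have hc2 : 0 < c * (2 * x - r) := mul_pos hc (by linarith)
  constructor
  · unfold X0
    rw [max_eq_right hr.le, min_eq_left (by nlinarith), mx_m (by nlinarith) (by nlinarith) (by nlinarith)]
    ring
  · unfold Rf
    rw [max_eq_right (by linarith : x - 1 / 2 ≤ 0), max_eq_right (by nlinarith),
      min_eq_right]
    · ring
    · apply le_min <;> nlinarith

lemma reg2 (hc : 0 < c) (hc' : c ≤ 1 / 16) (h0 : 0 < x) (h1 : x < 1 / 4) (h2 : 2 * x < r)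
    (h3 : r < 3 / 4 - x) :
    X0 c x r = 4 * c * x + 0 * r + 0 ∧
      Rf c x r = (4 / 3 + 8 / 3 * c) * x + (4 / 3 + 2 / 3 * c) * r + 0 := by
  have hr0 : 0 < r := by linarith
  have hcx : 0 < c * x := mul_pos hc h0
  have hcr : 0 < c * r := mul_pos hc hr0
  have hc14 : 0 < c * (1 / 4 - x) := mul_pos hc (by linarith)
  have hc2 : 0 < c * (r - 2 * x) := mul_pos hc (by linarith)
  have hc3 : 0 < c * (3 / 4 - x - r) := mul_pos hc (by linarith)
  constructor
  · unfold X0
    have hf2 : 4 * c * x ≤ (1 + 3 * c) * (1 - 4 * max (r - 1 / 2) 0) - 4 * (1 + 2 * c) * x := by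
      rcases le_total (r - 1 / 2) 0 with h | h
      · rw [max_eq_right h]; nlinarith
      · rw [max_eq_left h]; nlinarith
    rw [min_eq_left hf2, mx_m (by nlinarith) (by nlinarith) (by nlinarith)]
    ring
  · unfold Rf
    rw [max_eq_right (by linarith : x - 1 / 2 ≤ 0), max_eq_right (by nlinarith),
      min_eq_left, min_eq_right]
    · ring
    · nlinarith
    · apply min_le_of_right_le; nlinarith

lemma reg3 (hc : 0 < c) (hc' : c ≤ 1 / 16) (h0 : 1 / 2 < r) (h1 : 3 / 4 - x < r)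
    (h2 : r < 3 / 4 - x / 2) :
    X0 c x r = -4 * (1 + 2 * c) * x + -4 * (1 + 3 * c) * r + 3 * (1 + 3 * c) ∧
      Rf c x r = 0 * x + (-2 * c) * r + (1 + 2 * c) := by
  have hx : 0 < x := by linarith
  have hx2 : x < 1 / 2 := by linarith
  have hcx : 0 < c * x := mul_pos hc hx
  have hc1 : 0 < c * (r - 1 / 2) := mul_pos hc (by linarith)
  have hc2 : 0 < c * (r - (3 / 4 - x)) := mul_pos hc (by linarith)
  have hc3 : 0 < c * (3 / 4 - x / 2 - r) := mul_pos hc (by linarith)
  have hc4 : 0 < c * (1 / 2 - x) := mul_pos hc (by linarith)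
  constructor
  · unfold X0
    rw [max_eq_left (by linarith : (0:ℝ) ≤ r - 1 / 2), min_eq_right (by nlinarith),
      mx_m (by nlinarith) (by nlinarith) (by nlinarith)]
    ring
  · unfold Rf
    rw [max_eq_right (by linarith : x - 1 / 2 ≤ 0), max_eq_right (by nlinarith),
      min_eq_left, min_eq_left]
    · ring
    · nlinarith
    · apply min_le_of_left_le; nlinarith

lemma reg4 (hc : 0 < c) (hc' : c ≤ 1 / 16) (h0 : 0 < x) (h1 : 3 / 4 - x / 2 < r)
    (h2 : r < 1 - x) :
    X0 c x r = -2 * (1 + c) * x + 0 * r + 0 ∧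
      Rf c x r = 0 * x + (-2 * c) * r + (1 + 2 * c) := by
  have hx2 : x < 1 / 2 := by linarith
  have hr : 1 / 2 < r := by linarith
  have hcx : 0 < c * x := mul_pos hc h0
  have hc1 : 0 < c * (r - 1 / 2) := mul_pos hc (by linarith)
  have hc2 : 0 < c * (r - (3 / 4 - x / 2)) := mul_pos hc (by linarith)
  have hc3 : 0 < c * (1 - x - r) := mul_pos hc (by linarith)
  have hc4 : 0 < c * (1 / 2 - x) := mul_pos hc (by linarith)
  constructor
  · unfold X0
    rw [max_eq_left (by linarith : (0:ℝ) ≤ r - 1 / 2), min_eq_right (by nlinarith),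
      mx_a (by nlinarith) (by nlinarith) (by nlinarith)]
    ring
  · unfold Rf
    rw [max_eq_right (by linarith : x - 1 / 2 ≤ 0), max_eq_right (by nlinarith),
      min_eq_left, min_eq_left]
    · ring
    · nlinarith
    · apply min_le_of_left_le; nlinarith

lemma reg5 (hc : 0 < c) (hc' : c ≤ 1 / 16) (h0 : 0 < x) (h1 : x < r) (h2 : 1 - x < r)
    (h3 : r < 1) :
    X0 c x r = -1 * x + (1 + 2 * c) * r + (-(1 + 2 * c)) ∧
      Rf c x r = 0 * x + (-2 * c) * r + (1 + 2 * c) := by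
  have hr : 1 / 2 < r := by linarith
  have hcx : 0 < c * x := mul_pos hc h0
  have hc1 : 0 < c * (r - 1 / 2) := mul_pos hc (by linarith)
  have hc2 : 0 < c * (r - x) := mul_pos hc (by linarith)
  have hc3 : 0 < c * (r - (1 - x)) := mul_pos hc (by linarith)
  have hc4 : 0 < c * (1 - r) := mul_pos hc (by linarith)
  constructor
  · unfold X0
    rw [max_eq_left (by linarith : (0:ℝ) ≤ r - 1 / 2), min_eq_right (by nlinarith),
      mx_b (by nlinarith) (by nlinarith) (by nlinarith)]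
    ring
  · unfold Rf
    rw [min_eq_left, min_eq_left]
    · ring
    · nlinarith
    · apply min_le_of_left_le
      rcases le_total (x - 1 / 2) 0 with h | h
      · rw [max_eq_right h]; apply le_max_of_le_right; nlinarith
      · rw [max_eq_left h]; apply le_max_of_le_right; nlinarith

lemma reg6 (hc : 0 < c) (hc' : c ≤ 1 / 16) (h0 : 1 / 2 < x) (h1 : r < x) (h2 : 2 * x - 1 < r)
    (h3 : x < 1) :
    X0 c x r = 2 * c * x + 0 * r + (-1 - 2 * c) ∧
      Rf c x r = (-2 * (1 + 2 * c)) * x + 2 * (1 + c) * r + (1 + 2 * c) := by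
  have hr0 : 0 < r := by linarith
  have hcr : 0 < c * r := mul_pos hc hr0
  have hc1 : 0 < c * (x - 1 / 2) := mul_pos hc (by linarith)
  have hc2 : 0 < c * (x - r) := mul_pos hc (by linarith)
  have hc3 : 0 < c * (r - (2 * x - 1)) := mul_pos hc (by linarith)
  have hc4 : 0 < c * (1 - x) := mul_pos hc (by linarith)
  constructor
  · unfold X0
    rw [max_eq_right]
    · ring
    · refine max_le (max_le ?_ ?_) ?_
      · apply min_le_of_right_le
        have : (0:ℝ) ≤ max (r - 1 / 2) 0 := le_max_right _ _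
        nlinarith [mul_nonneg hc.le this]
      · nlinarith
      · nlinarith
  · unfold Rf
    rw [max_eq_left (by linarith : (0:ℝ) ≤ x - 1 / 2), max_eq_right (by nlinarith),
      min_eq_right]
    · ring
    · apply le_min <;> nlinarith

lemma reg7 (hc : 0 < c) (hc' : c ≤ 1 / 16) (h0 : 0 < r) (h1 : r < 2 * x - 1)
    (h3 : x < 1) :
    X0 c x r = 2 * c * x + 0 * r + (-1 - 2 * c) ∧
      Rf c x r = 0 * x + 1 * r + 0 := by
  have hx : 1 / 2 < x := by linarith
  have hrx : r < x := by linarith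
  have hcr : 0 < c * r := mul_pos hc h0
  have hc1 : 0 < c * (x - 1 / 2) := mul_pos hc (by linarith)
  have hc2 : 0 < c * (x - r) := mul_pos hc (by linarith)
  have hc3 : 0 < c * (2 * x - 1 - r) := mul_pos hc (by linarith)
  have hc4 : 0 < c * (1 - x) := mul_pos hc (by linarith)
  constructor
  · unfold X0
    rw [max_eq_right]
    · ring
    · refine max_le (max_le ?_ ?_) ?_
      · apply min_le_of_right_le
        have : (0:ℝ) ≤ max (r - 1 / 2) 0 := le_max_right _ _
        nlinarith [mul_nonneg hc.le this]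
      · nlinarith
      · nlinarith
  · unfold Rf
    rw [max_eq_left (by linarith : (0:ℝ) ≤ x - 1 / 2), max_eq_left (by nlinarith),
      min_eq_right]
    · ring
    · apply le_min <;> nlinarith

/-- On the box `1/4 ≤ x ≤ 1/2`, `0 ≤ r ≤ 1/2` the profile is affine. -/
lemma regQ (hc : 0 < c) (hc' : c ≤ 1 / 16) (h1 : 1 / 4 ≤ x) (h2 : x ≤ 1 / 2) (h3 : 0 ≤ r)
    (h4 : r ≤ 1 / 2) :
    X0 c x r = 1 + 3 * c - 4 * (1 + 2 * c) * x ∧ Rf c x r = 2 * (1 + c) * r := by
  have hcr : 0 ≤ c * r := mul_nonneg hc.le h3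
  have hc1 : 0 ≤ c * (x - 1 / 4) := mul_nonneg hc.le (by linarith)
  have hc2 : 0 ≤ c * (1 / 2 - x) := mul_nonneg hc.le (by linarith)
  have hc3 : 0 ≤ c * (1 / 2 - r) := mul_nonneg hc.le (by linarith)
  constructor
  · unfold X0
    rw [max_eq_right (by linarith : r - 1 / 2 ≤ 0), min_eq_right (by nlinarith),
      mx_m (by nlinarith) (by nlinarith) (by nlinarith)]
    ring
  · unfold Rf
    rw [max_eq_right (by linarith : x - 1 / 2 ≤ 0), max_eq_right (by nlinarith),
      min_eq_right]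
    · ring
    · apply le_min <;> nlinarith

end vals

/-- Local affine form of the profile near `(x, r)`. -/
def LocalData (c x r : ℝ) : Prop :=
  ∃ a b e a' b' e' : ℝ,
      (∀ᶠ p : ℝ × ℝ in 𝓝 (x, r), X0 c p.1 p.2 = a * p.1 + b * p.2 + e ∧
        Rf c p.1 p.2 = a' * p.1 + b' * p.2 + e') ∧
      2 * c ≤ a * b' - b * a' ∧ a * b' - b * a' ≤ 10 * c

/-- Local affine form of the profile off finitely many lines. -/
lemma local_data {c x r : ℝ} (hc : 0 < c) (hc' : c ≤ 1 / 16) (hx0 : 0 < x) (hx1 : x < 1)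
    (hr0 : 0 < r) (hr1 : r < 1) (hQ : ¬ (1 / 4 ≤ x ∧ x ≤ 1 / 2 ∧ r ≤ 1 / 2))
    (n1 : x ≠ 1 / 4) (n2 : x ≠ 1 / 2) (n4 : r ≠ 3 / 4 - x)
    (n5 : r ≠ 3 / 4 - x / 2) (n6 : r ≠ 1 - x) (n7 : r ≠ x) (n8 : r ≠ 2 * x - 1)
    (n9 : r ≠ 2 * x) : LocalData c x r := by
  have ev : ∀ f g : ℝ × ℝ → ℝ, Continuous f → Continuous g → f (x, r) < g (x, r) →
      ∀ᶠ p : ℝ × ℝ in 𝓝 (x, r), f p < g p := fun f g hf hg h =>
    (isOpen_lt hf hg).mem_nhds h
  have ex0 := ev (fun _ => 0) (fun p => p.1) (by fun_prop) (by fun_prop) hx0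
  have ex1 := ev (fun p => p.1) (fun _ => 1) (by fun_prop) (by fun_prop) hx1
  have er0 := ev (fun _ => 0) (fun p => p.2) (by fun_prop) (by fun_prop) hr0
  have er1 := ev (fun p => p.2) (fun _ => 1) (by fun_prop) (by fun_prop) hr1
  have case1 : x < 1 / 4 → r < 2 * x → LocalData c x r := fun h1 h2 => by
    refine ⟨4 * c, 0, 0, 0, 2 * (1 + c), 0, ?_, by nlinarith, by nlinarith⟩
    filter_upwards [er0, ev (fun p => p.1) (fun _ => 1 / 4) (by fun_prop) (by fun_prop) h1,
      ev (fun p => p.2) (fun p => 2 * p.1) (by fun_prop) (by fun_prop) h2] with p a1 a2 a3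
    exact reg1 hc hc' a2 a3 a1
  have case2 : x < 1 / 4 → 2 * x < r → r < 3 / 4 - x → LocalData c x r := fun h1 h2 h3 => by
    refine ⟨4 * c, 0, 0, 4 / 3 + 8 / 3 * c, 4 / 3 + 2 / 3 * c, 0, ?_, by nlinarith, by nlinarith⟩
    filter_upwards [ex0, ev (fun p => p.1) (fun _ => 1 / 4) (by fun_prop) (by fun_prop) h1,
      ev (fun p => 2 * p.1) (fun p => p.2) (by fun_prop) (by fun_prop) h2,
      ev (fun p => p.2) (fun p => 3 / 4 - p.1) (by fun_prop) (by fun_prop) h3]
      with p a1 a2 a3 a4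
    exact reg2 hc hc' a1 a2 a3 a4
  have case3 : 1 / 2 < r → 3 / 4 - x < r → r < 3 / 4 - x / 2 → LocalData c x r := fun h1 h2 h3 => by
    refine ⟨-4 * (1 + 2 * c), -4 * (1 + 3 * c), 3 * (1 + 3 * c), 0, -2 * c, 1 + 2 * c, ?_,
      by nlinarith, by nlinarith⟩
    filter_upwards [ev (fun _ => 1 / 2) (fun p => p.2) (by fun_prop) (by fun_prop) h1,
      ev (fun p => 3 / 4 - p.1) (fun p => p.2) (by fun_prop) (by fun_prop) h2,
      ev (fun p => p.2) (fun p => 3 / 4 - p.1 / 2) (by fun_prop) (by fun_prop) h3]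
      with p a1 a2 a3
    exact reg3 hc hc' a1 a2 a3
  have case4 : 3 / 4 - x / 2 < r → r < 1 - x → LocalData c x r := fun h1 h2 => by
    refine ⟨-2 * (1 + c), 0, 0, 0, -2 * c, 1 + 2 * c, ?_,
      by nlinarith, by nlinarith⟩
    filter_upwards [ex0, ev (fun p => 3 / 4 - p.1 / 2) (fun p => p.2) (by fun_prop) (by fun_prop) h1,
      ev (fun p => p.2) (fun p => 1 - p.1) (by fun_prop) (by fun_prop) h2]
      with p a1 a2 a3
    exact reg4 hc hc' a1 a2 a3
  have case5 : x < r → 1 - x < r → LocalData c x r := fun h1 h2 => by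
    refine ⟨-1, 1 + 2 * c, -(1 + 2 * c), 0, -2 * c, 1 + 2 * c, ?_,
      by nlinarith, by nlinarith⟩
    filter_upwards [ex0, er1, ev (fun p => p.1) (fun p => p.2) (by fun_prop) (by fun_prop) h1,
      ev (fun p => 1 - p.1) (fun p => p.2) (by fun_prop) (by fun_prop) h2]
      with p a1 a2 a3 a4
    exact reg5 hc hc' a1 a3 a4 a2
  have case6 : 1 / 2 < x → r < x → 2 * x - 1 < r → LocalData c x r := fun h1 h2 h3 => by
    refine ⟨2 * c, 0, -1 - 2 * c, -2 * (1 + 2 * c), 2 * (1 + c), 1 + 2 * c, ?_,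
      by nlinarith, by nlinarith⟩
    filter_upwards [ex1, ev (fun _ => 1 / 2) (fun p => p.1) (by fun_prop) (by fun_prop) h1,
      ev (fun p => p.2) (fun p => p.1) (by fun_prop) (by fun_prop) h2,
      ev (fun p => 2 * p.1 - 1) (fun p => p.2) (by fun_prop) (by fun_prop) h3]
      with p a1 a2 a3 a4
    exact reg6 hc hc' a2 a3 a4 a1
  have case7 : r < 2 * x - 1 → LocalData c x r := fun h1 => by
    refine ⟨2 * c, 0, -1 - 2 * c, 0, 1, 0, ?_, by nlinarith, by nlinarith⟩
    filter_upwards [er0, ex1, ev (fun p => p.2) (fun p => 2 * p.1 - 1) (by fun_prop) (by fun_prop) h1]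
      with p a1 a2 a3
    exact reg7 hc hc' a1 a3 a2
  rcases lt_or_gt_of_ne n1 with h | h
  · rcases lt_or_gt_of_ne n9 with h9 | h9
    · exact case1 h h9
    · rcases lt_or_gt_of_ne n4 with h4 | h4
      · exact case2 h h9 h4
      · rcases lt_or_gt_of_ne n5 with h5 | h5
        · exact case3 (by linarith) h4 h5
        · rcases lt_or_gt_of_ne n6 with h6 | h6
          · exact case4 h5 h6
          · exact case5 (by linarith) h6
  · rcases lt_or_gt_of_ne n2 with h2 | h2
    · have h3 : 1 / 2 < r := by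
        by_contra hcon
        exact hQ ⟨by linarith, by linarith, by linarith⟩
      rcases lt_or_gt_of_ne n5 with h5 | h5
      · exact case3 h3 (by linarith) h5
      · rcases lt_or_gt_of_ne n6 with h6 | h6
        · exact case4 h5 h6
        · exact case5 (by linarith) h6
    · rcases lt_or_gt_of_ne n7 with h7 | h7
      · rcases lt_or_gt_of_ne n8 with h8 | h8
        · exact case7 h8
        · exact case6 h2 h7 h8
      · exact case5 h7 (by linarith)

end

end Pool.Agent.H72.FD
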