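import Pool.Agent.H72.FD.Iter

/-! Weighted norms, Lipschitz and contraction estimates, measures for MP_104731_an. -/

namespace Pool.Agent.H72.FD

open Set Filter Topology MeasureTheory

noncomputable section

/-- The cube root of one half. -/
def tau : ℝ := (1 / 2 : ℝ) ^ (1 / 3 : ℝ)

lemma tau_pos : 0 < tau := Real.rpow_pos_of_pos (by norm_num) _

lemma tau_cube : tau ^ 3 = 1 / 2 := by
  unfold tau
  rw [← Real.rpow_natCast, ← Real.rpow_mul (by norm_num)]
  norm_num

lemma tau_lb : 3 / 4 < tau := by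
  by_contra h
  push Not at h
  have := pow_le_pow_left₀ tau_pos.le h 3
  rw [tau_cube] at this
  norm_num at this

lemma tau_ub : tau < 4 / 5 := by
  by_contra h
  push Not at h
  have := pow_le_pow_left₀ (by norm_num) h 3
  rw [tau_cube] at this
  norm_num at this

lemma tau_two_lb : 9 / 16 ≤ tau ^ 2 := by
  have := pow_le_pow_left₀ (by norm_num) tau_lb.le 2
  linarith

lemma tau_two_ub : tau ^ 2 ≤ 16 / 25 := by
  have := pow_le_pow_left₀ tau_pos.le tau_ub.le 2
  linarith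

lemma tau_four : tau ^ 4 = tau / 2 := by
  rw [show tau ^ 4 = tau ^ 3 * tau by ring, tau_cube]; ring

/-- Weighted maximum norm. -/
def gau (a b : ℝ) (z : V) : ℝ := max |z 0| (max (a * |z 1|) (b * |z 2|))

lemma gau_le {a b C : ℝ} {z : V} : gau a b z ≤ C ↔ |z 0| ≤ C ∧ a * |z 1| ≤ C ∧ b * |z 2| ≤ C := by
  unfold gau
  rw [max_le_iff, max_le_iff]

lemma gau_nonneg (a b : ℝ) (z : V) : 0 ≤ gau a b z := (abs_nonneg _).trans (le_max_left _ _)

lemma gau_zero (a b : ℝ) : gau a b 0 = 0 := by simp [gau]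

lemma gau_add {a b : ℝ} (ha : 0 ≤ a) (hb : 0 ≤ b) (x y : V) :
    gau a b (x + y) ≤ gau a b x + gau a b y := by
  obtain ⟨x0, x1, x2⟩ := gau_le.1 (le_refl (gau a b x))
  obtain ⟨y0, y1, y2⟩ := gau_le.1 (le_refl (gau a b y))
  rw [gau_le]
  refine ⟨?_, ?_, ?_⟩
  · have := abs_add_le (x 0) (y 0)
    change |x 0 + y 0| ≤ _
    linarith
  · have := mul_le_mul_of_nonneg_left (abs_add_le (x 1) (y 1)) ha
    change a * |x 1 + y 1| ≤ _
    linarith
  · have := mul_le_mul_of_nonneg_left (abs_add_le (x 2) (y 2)) hb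
    change b * |x 2 + y 2| ≤ _
    linarith

lemma gau_le_norm {a b : ℝ} (ha' : a ≤ 1) (hb' : b ≤ 1) (x : V) :
    gau a b x ≤ ‖x‖ := by
  rw [gau_le]
  have n := norm_nonneg x
  refine ⟨abs_coord_le x 0, ?_, ?_⟩
  · exact (mul_le_of_le_one_left (abs_nonneg _) ha').trans (abs_coord_le x 1)
  · exact (mul_le_of_le_one_left (abs_nonneg _) hb').trans (abs_coord_le x 2)

lemma norm_le_gau {a b d : ℝ} (hd : 0 < d) (hd1 : 1 ≤ d) (ha : 1 ≤ d * a) (hb : 1 ≤ d * b) (x : V) :
    ‖x‖ ≤ 2 * d * gau a b x := by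
  obtain ⟨x0, x1, x2⟩ := gau_le.1 (le_refl (gau a b x))
  have n := gau_nonneg a b x
  rw [mul_assoc]
  apply norm_le_of_coord
  intro i
  fin_cases i
  · change |x 0| ≤ _
    have := mul_le_mul_of_nonneg_right hd1 n
    linarith
  · change |x 1| ≤ _
    have h1 := mul_le_mul_of_nonneg_left x1 hd.le
    have h2 := mul_le_mul_of_nonneg_right ha (abs_nonneg (x 1))
    linarith
  · change |x 2| ≤ _
    have h1 := mul_le_mul_of_nonneg_left x2 hd.le
    have h2 := mul_le_mul_of_nonneg_right hb (abs_nonneg (x 2))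
    linarith

/-- Target norm. -/
def nt (z : V) : ℝ := gau tau (tau ^ 2) z

/-- Source norm. -/
def ns (z : V) : ℝ := gau (tau ^ 2) (tau ^ 4) z

lemma nt_nonneg (z : V) : 0 ≤ nt z := gau_nonneg _ _ _
lemma ns_nonneg (z : V) : 0 ≤ ns z := gau_nonneg _ _ _

lemma nt_add (x y : V) : nt (x + y) ≤ nt x + nt y := gau_add tau_pos.le (by positivity) x y

lemma nt_le_norm (z : V) : nt z ≤ ‖z‖ :=
  gau_le_norm (by linarith [tau_ub]) (by linarith [tau_two_ub]) z

lemma ns_le_norm (z : V) : ns z ≤ ‖z‖ :=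
  gau_le_norm (by linarith [tau_two_ub]) (by rw [tau_four]; linarith [tau_ub]) z

lemma norm_le_nt (z : V) : ‖z‖ ≤ 4 * nt z := by
  have := norm_le_gau (a := tau) (b := tau ^ 2) (d := 2) (by norm_num) (by norm_num)
    (by linarith [tau_lb]) (by linarith [tau_two_lb]) z
  unfold nt
  linarith

lemma norm_le_ns (z : V) : ‖z‖ ≤ 8 * ns z := by
  have := norm_le_gau (a := tau ^ 2) (b := tau ^ 4) (d := 4) (by norm_num) (by norm_num)
    (by linarith [tau_two_lb]) (by rw [tau_four]; linarith [tau_lb]) z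
  unfold ns
  linarith

lemma nt_ll {c : ℝ} (hc : 0 < c) (z : V) : nt (ll c z) ≤ tau * (1 + 2 * c) * nt z := by
  obtain ⟨x0, x1, x2⟩ := gau_le.1 (le_refl (nt z))
  have ht := tau_pos
  have n := nt_nonneg z
  have h3 := tau_cube
  unfold nt at *
  rw [gau_le]
  refine ⟨?_, ?_, ?_⟩
  · rw [ll_zero, abs_mul, abs_neg, abs_of_nonneg (by linarith : 0 ≤ 1 / 2 + c)]
    have := mul_le_mul_of_nonneg_left x2 (by positivity : 0 ≤ tau * (1 + 2 * c))
    calc (1 / 2 + c) * |z 2| = tau * (1 + 2 * c) * (tau ^ 2 * |z 2|) := by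
          rw [show tau * (1 + 2 * c) * (tau ^ 2 * |z 2|) = tau ^ 3 * (1 + 2 * c) * |z 2| by ring, h3]
          ring
      _ ≤ _ := this
  · rw [ll_one, abs_mul, abs_neg, abs_of_nonneg (by linarith : 0 ≤ 1 + c)]
    have h1 := mul_le_mul_of_nonneg_left x0 (by positivity : 0 ≤ tau * (1 + c))
    have h2 : tau * (1 + c) * gau tau (tau ^ 2) z ≤ tau * (1 + 2 * c) * gau tau (tau ^ 2) z := by
      apply mul_le_mul_of_nonneg_right _ n
      nlinarith
    linarith
  · rw [ll_two, abs_mul, abs_of_nonneg (by linarith : 0 ≤ 1 + c)]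
    have h1 := mul_le_mul_of_nonneg_left x1 (by positivity : 0 ≤ tau * (1 + c))
    have h2 : tau * (1 + c) * gau tau (tau ^ 2) z ≤ tau * (1 + 2 * c) * gau tau (tau ^ 2) z := by
      apply mul_le_mul_of_nonneg_right _ n
      nlinarith
    linarith

lemma ns_bl (z : V) : ns (bl z) ≤ 8 * tau ^ 4 * ns z := by
  obtain ⟨x0, x1, x2⟩ := gau_le.1 (le_refl (ns z))
  have ht := tau_pos
  have n := ns_nonneg z
  have h3 := tau_cube
  unfold ns at *
  rw [gau_le]
  refine ⟨?_, ?_, ?_⟩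
  · rw [bl_zero, abs_mul, abs_two]
    have := mul_le_mul_of_nonneg_left x1 (by positivity : 0 ≤ 8 * tau ^ 4)
    calc 2 * |z 1| = 8 * tau ^ 4 * (tau ^ 2 * |z 1|) := by
          rw [show 8 * tau ^ 4 * (tau ^ 2 * |z 1|) = 8 * (tau ^ 3) ^ 2 * |z 1| by ring, h3]
          ring
      _ ≤ _ := this
  · rw [bl_one, abs_mul, abs_two]
    have := mul_le_mul_of_nonneg_left x2 (by positivity : 0 ≤ 8 * tau ^ 4)
    calc tau ^ 2 * (2 * |z 2|) = 8 * tau ^ 4 * (tau ^ 4 * |z 2|) := by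
          rw [show 8 * tau ^ 4 * (tau ^ 4 * |z 2|) = 8 * (tau ^ 3) ^ 2 * tau ^ 2 * |z 2| by ring, h3]
          ring
      _ ≤ _ := this
  · rw [bl_two, abs_mul, abs_of_nonneg (by norm_num : (0:ℝ) ≤ 8)]
    have := mul_le_mul_of_nonneg_left x0 (by positivity : 0 ≤ 8 * tau ^ 4)
    linarith

lemma fac_le {c : ℝ} (hc : 0 < c) (hc' : c ≤ 1 / 16) : tau * (1 + 2 * c) ≤ 9 / 10 := by
  have := tau_ub
  have := tau_pos
  nlinarith

lemma fac_le' {c : ℝ} (hc : 0 < c) (hc' : c ≤ 1 / 16) : tau * (1 + 2 * c) * (8 * tau ^ 4) ≤ 3 := by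
  have h : tau * (1 + 2 * c) * (8 * tau ^ 4) = 4 * (1 + 2 * c) * tau ^ 2 := by
    rw [show tau * (1 + 2 * c) * (8 * tau ^ 4) = 8 * (1 + 2 * c) * tau ^ 3 * tau ^ 2 by ring, tau_cube]
    ring
  rw [h]
  have := tau_two_ub
  have := tau_two_lb
  nlinarith

lemma P_lip_aux {c : ℕ → ℝ} (hc : ∀ m, 0 < c m) (hc' : ∀ m, c m ≤ 1 / 16) (N : ℕ) :
    ∀ m (x y : V), nt (P c N m x - P c N m y) ≤ 800 * 7 ^ N * ns (x - y) := by
  induction N with
  | zero =>
    intro m x y
    simp only [P, sub_self]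
    have : nt 0 = 0 := gau_zero _ _
    rw [this]
    have := ns_nonneg (x - y)
    positivity
  | succ N ih =>
    intro m x y
    have n := ns_nonneg (x - y)
    have e : P c (N + 1) m x - P c (N + 1) m y = (psi (c m) x - psi (c m) y) +
        ll (c m) ((P c N (m + 1) (bmap 1 x) - P c N (m + 1) (bmap 1 y)) +
          (P c N (m + 1) (bmap (-1) x) - P c N (m + 1) (bmap (-1) y))) := by
      simp only [P, map_add, map_sub]
      abel
    rw [e]
    refine (nt_add _ _).trans ?_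
    have h1 : nt (psi (c m) x - psi (c m) y) ≤ 800 * ns (x - y) := by
      have := nt_le_norm (psi (c m) x - psi (c m) y)
      have := psi_lip (hc m) (hc' m) x y
      have := norm_le_ns (x - y)
      linarith
    have h2 := nt_ll (hc m) ((P c N (m + 1) (bmap 1 x) - P c N (m + 1) (bmap 1 y)) +
          (P c N (m + 1) (bmap (-1) x) - P c N (m + 1) (bmap (-1) y)))
    have h3 := nt_add (P c N (m + 1) (bmap 1 x) - P c N (m + 1) (bmap 1 y))
          (P c N (m + 1) (bmap (-1) x) - P c N (m + 1) (bmap (-1) y))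
    have h4 := ih (m + 1) (bmap 1 x) (bmap 1 y)
    have h5 := ih (m + 1) (bmap (-1) x) (bmap (-1) y)
    rw [bmap_sub] at h4 h5
    have h6 := ns_bl (x - y)
    have hT : 0 ≤ tau * (1 + 2 * c m) := mul_nonneg tau_pos.le (by linarith [hc m])
    have h7 : (800:ℝ) * 7 ^ N * ns (bl (x - y)) ≤ 800 * 7 ^ N * (8 * tau ^ 4 * ns (x - y)) :=
      mul_le_mul_of_nonneg_left h6 (by positivity)
    have h8 := mul_le_mul_of_nonneg_left (h3.trans (add_le_add (h4.trans h7) (h5.trans h7))) hT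
    have h9 := mul_le_mul_of_nonneg_right (fac_le' (hc m) (hc' m))
      (by positivity : 0 ≤ 1600 * 7 ^ N * ns (x - y))
    have h10 : (1:ℝ) ≤ 7 ^ N := one_le_pow₀ (by norm_num)
    have h11 : 800 * ns (x - y) ≤ 800 * 7 ^ N * ns (x - y) := by nlinarith
    rw [pow_succ]
    nlinarith

lemma P_lip {c : ℕ → ℝ} (hc : ∀ m, 0 < c m) (hc' : ∀ m, c m ≤ 1 / 16) (N m : ℕ) (x y : V) :
    ‖P c N m x - P c N m y‖ ≤ 3200 * 7 ^ N * ‖x - y‖ := by
  have h1 := norm_le_nt (P c N m x - P c N m y)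
  have h2 := P_lip_aux hc hc' N m x y
  have h3 := ns_le_norm (x - y)
  have h4 : (800:ℝ) * 7 ^ N * ns (x - y) ≤ 800 * 7 ^ N * ‖x - y‖ :=
    mul_le_mul_of_nonneg_left h3 (by positivity)
  linarith

lemma P_cauchy_aux {c : ℕ → ℝ} (hc : ∀ m, 0 < c m) (hc' : ∀ m, c m ≤ 1 / 16) (N : ℕ) :
    ∀ m (x : V), nt (P c (N + 1) m x - P c N m x) ≤ 400 * (9 / 10) ^ N := by
  induction N with
  | zero =>
    intro m x
    have : P c (0 + 1) m x - P c 0 m x = psi (c m) x := by simp [P]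
    rw [this]
    have := nt_le_norm (psi (c m) x)
    have := psi_bound (hc m) (hc' m) x
    simp
    linarith
  | succ N ih =>
    intro m x
    have e : P c (N + 1 + 1) m x - P c (N + 1) m x =
        ll (c m) ((P c (N + 1) (m + 1) (bmap 1 x) - P c N (m + 1) (bmap 1 x)) +
          (P c (N + 1) (m + 1) (bmap (-1) x) - P c N (m + 1) (bmap (-1) x))) := by
      have e1 : P c (N + 1 + 1) m x = psi (c m) x +
        ll (c m) (P c (N + 1) (m + 1) (bmap 1 x) + P c (N + 1) (m + 1) (bmap (-1) x)) := rfl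
      have e2 : P c (N + 1) m x = psi (c m) x +
        ll (c m) (P c N (m + 1) (bmap 1 x) + P c N (m + 1) (bmap (-1) x)) := rfl
      rw [e1, e2]
      simp only [map_add, map_sub]
      abel
    rw [e]
    refine (nt_ll (hc m) _).trans ?_
    have hT : 0 ≤ tau * (1 + 2 * c m) := mul_nonneg tau_pos.le (by linarith [hc m])
    have key : nt ((P c (N + 1) (m + 1) (bmap 1 x) - P c N (m + 1) (bmap 1 x)) +
          (P c (N + 1) (m + 1) (bmap (-1) x) - P c N (m + 1) (bmap (-1) x))) ≤ 400 * (9 / 10) ^ N := by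
      by_cases h : bmap 1 x ∈ cubi
      · have h' : bmap (-1) x ∉ cubi := fun h' => bmap_disj (cubi_sub h) (cubi_sub h')
        rw [P_off hc (N + 1) (m + 1) _ h', P_off hc N (m + 1) _ h', sub_zero, add_zero]
        exact ih (m + 1) _
      · rw [P_off hc (N + 1) (m + 1) _ h, P_off hc N (m + 1) _ h, sub_zero, zero_add]
        exact ih (m + 1) _
    have h1 := mul_le_mul (fac_le (hc m) (hc' m)) key (nt_nonneg _) (by norm_num)
    rw [pow_succ]
    linarith

lemma P_cauchy {c : ℕ → ℝ} (hc : ∀ m, 0 < c m) (hc' : ∀ m, c m ≤ 1 / 16) (N m : ℕ) (x : V) :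
    ‖P c (N + 1) m x - P c N m x‖ ≤ 1600 * (9 / 10) ^ N := by
  have h1 := norm_le_nt (P c (N + 1) m x - P c N m x)
  have h2 := P_cauchy_aux hc hc' N m x
  linarith

/-! Measures -/

lemma vol_bmap (s : ℝ) (S : Set V) : volume (bmap s ⁻¹' S) = ENNReal.ofReal (1 / 32) * volume S := by
  have h1 : bmap s ⁻¹' S = bl ⁻¹' ((fun y => y + (- pt 0 0 (3 * s))) ⁻¹' S) := by
    ext y
    simp [bmap, sub_eq_add_neg]
  have hd : LinearMap.det (bl : V →ₗ[ℝ] V) = 32 := bl_det
  rw [h1, Measure.addHaar_preimage_continuousLinearMap _ (by rw [hd]; norm_num), hd,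
    measure_preimage_add_right]
  norm_num

lemma ae_bmap (s : ℝ) {p : V → Prop} (h : ∀ᵐ x : V, p x) : ∀ᵐ x : V, p (bmap s x) := by
  rw [ae_iff] at h ⊢
  have : {x : V | ¬ p (bmap s x)} = bmap s ⁻¹' {x | ¬ p x} := rfl
  rw [this, vol_bmap, h, mul_zero]

lemma vol_cub : volume cub < ⊤ := by
  have : cub ⊆ Metric.closedBall 0 2 := by
    intro y hy
    rw [mem_closedBall_zero_iff]
    have := norm_le_of_coord (x := y) (C := 1) (by
      intro i; fin_cases i
      · exact hy.1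
      · exact hy.2.1
      · exact hy.2.2)
    linarith
  exact (measure_mono this).trans_lt measure_closedBall_lt_top

lemma vol_Rm (k : ℕ) : volume (Rm k) ≤ ENNReal.ofReal ((1 / 16) ^ k) * volume cub := by
  induction k with
  | zero => simp [Rm]
  | succ k ih =>
    have h1 : volume (Rm (k + 1)) ≤ ENNReal.ofReal (1 / 32) * volume (Rm k) +
        ENNReal.ofReal (1 / 32) * volume (Rm k) := by
      refine (measure_union_le _ _).trans ?_
      rw [vol_bmap, vol_bmap]
    rw [← add_mul, ← ENNReal.ofReal_add (by norm_num) (by norm_num)] at h1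
    refine h1.trans ?_
    refine (mul_le_mul_right ih _).trans ?_
    rw [← mul_assoc, ← ENNReal.ofReal_mul (by norm_num), pow_succ]
    apply le_of_eq
    congr 2
    ring

end

end Pool.Agent.H72.FD
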